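import Mathlib

/-!
# The coefficients of the symmetric cycle

`L` is a graph on the finite ordered set `V`, `φ` is a function on the finite subsets of `V` (a cocycle of the flag
complex of `L` of characteristic two). We construct `xi A B T` for cliques `A`, `B` and `T ⊆ A ∪ B` with
`xi A B T = ∑_{T' ⊆ T} xi B A T'`, with `xi A B T = φ T` in the lowest degree.
-/

set_option autoImplicit false
set_option linter.unusedSectionVars false
set_option linter.unusedVariables false

namespace Pool.Agent.W2helper34.AD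

open Finset

section Char2

variable {V : Type} [LinearOrder V] {K : Type} [Field K] [CharP K 2]

/-- the telescoping identity -/
theorem tele (X : Finset V) (p : V → K) :
    ∏ u ∈ X, p u + ∏ u ∈ X, (1 + p u) =
      ∑ v ∈ X, (∏ u ∈ X.filter (fun u => v < u), p u) * ∏ u ∈ X.filter (fun u => u < v), (1 + p u) := by
  induction X using Finset.induction_on_max with
  | empty => simp [CharTwo.add_self_eq_zero]
  | insert a X ha ih =>
    have haX : a ∉ X := fun h => lt_irrefl _ (ha a h)
    rw [prod_insert haX, prod_insert haX, sum_insert haX]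
    have e1 : (insert a X).filter (fun u => a < u) = ∅ := by
      rw [filter_eq_empty_iff]
      intro u hu
      rcases mem_insert.mp hu with h | h
      · rw [h]; exact lt_irrefl _
      · exact (ha u h).not_gt
    have e2 : (insert a X).filter (fun u => u < a) = X := by
      ext u
      simp only [mem_filter, mem_insert]
      constructor
      · rintro ⟨h | h, h2⟩
        · exact absurd h2 (by rw [h]; exact lt_irrefl _)
        · exact h
      · exact fun h => ⟨Or.inr h, ha u h⟩
    have e3 : ∀ v ∈ X, (∏ u ∈ (insert a X).filter (fun u => v < u), p u) *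
        ∏ u ∈ (insert a X).filter (fun u => u < v), (1 + p u) =
        p a * ((∏ u ∈ X.filter (fun u => v < u), p u) * ∏ u ∈ X.filter (fun u => u < v), (1 + p u)) := by
      intro v hv
      rw [filter_insert, if_pos (ha v hv), filter_insert, if_neg (ha v hv).not_gt,
        prod_insert (by simp [haX])]
      ring
    rw [e1, e2, sum_congr rfl e3, ← mul_sum, ← ih, prod_empty]
    ring

/-- parity of the number of elements of `D` above `u` -/
def par (K : Type) [Field K] (D : Finset V) (u : V) : K := ((D.filter (fun k => u < k)).card : K)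

theorem par_insert (D : Finset V) (u v : V) (hv : v ∉ D) :
    par K (insert v D) u = par K D u + if u < v then 1 else 0 := by
  rw [par, filter_insert]
  split_ifs with h
  · rw [card_insert_of_notMem (by simp [hv]), Nat.cast_add, Nat.cast_one, par]
  · rw [add_zero, par]

/-- the coefficients for the cliques -/
def psi (φ : Finset V → K) (T : Finset V) : K := ∑ D ∈ T.powerset, φ D * ∏ u ∈ T \ D, par K D u

theorem sum_Icc_prod (D T : Finset V) (h : D ⊆ T) (p : V → K) :
    ∑ T' ∈ Icc D T, ∏ u ∈ T' \ D, p u = ∏ u ∈ T \ D, (1 + p u) := by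
  rw [Finset.Icc_eq_image_powerset h, sum_image, prod_one_add]
  · refine sum_congr rfl fun S hS => ?_
    congr 1
    rw [union_sdiff_left]
    refine sdiff_eq_self_of_disjoint ?_
    exact (disjoint_sdiff.mono_right (mem_powerset.mp hS)).symm
  · intro S hS S' hS' hSS
    simp only [coe_powerset, Set.mem_preimage, Set.mem_powerset_iff, coe_subset] at hS hS'
    have h1 : (D ∪ S) \ D = S := by
      rw [union_sdiff_left]
      exact sdiff_eq_self_of_disjoint (disjoint_sdiff.mono_right hS).symm
    have h2 : (D ∪ S') \ D = S' := by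
      rw [union_sdiff_left]
      exact sdiff_eq_self_of_disjoint (disjoint_sdiff.mono_right hS').symm
    simp only at hSS
    rw [← h1, ← h2, hSS]

theorem zeta_psi (φ : Finset V → K) (T : Finset V) :
    ∑ T' ∈ T.powerset, psi φ T' = ∑ D ∈ T.powerset, φ D * ∏ u ∈ T \ D, (1 + par K D u) := by
  simp only [psi]
  rw [sum_comm' (t' := T.powerset) (s' := fun D => Icc D T)]
  · refine sum_congr rfl fun D hD => ?_
    rw [← mul_sum, sum_Icc_prod D T (mem_powerset.mp hD)]
  · intro T' D
    simp only [mem_powerset, mem_Icc]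
    constructor
    · rintro ⟨h1, h2⟩
      exact ⟨⟨h2, h1⟩, h2.trans h1⟩
    · rintro ⟨⟨h2, h1⟩, _⟩
      exact ⟨h1, h2⟩

/-- the symmetry on the cliques -/
theorem psi_symm (φ : Finset V → K) (T : Finset V)
    (hφ : ∀ D ⊆ T, ∑ v ∈ D, φ (D.erase v) = 0) : ∑ T' ∈ T.powerset, psi φ T' = psi φ T := by
  rw [zeta_psi]
  have h1 : ∑ D ∈ T.powerset, φ D * ∏ u ∈ T \ D, (1 + par K D u) + psi φ T = 0 := by
    rw [psi, ← sum_add_distrib]
    have e1 : ∀ D ∈ T.powerset, φ D * ∏ u ∈ T \ D, (1 + par K D u) + φ D * ∏ u ∈ T \ D, par K D u =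
        ∑ v ∈ T \ D, φ D * ∏ u ∈ T \ insert v D, par K (insert v D) u := by
      intro D hD
      rw [← mul_add, add_comm, tele, mul_sum]
      refine sum_congr rfl fun v hv => ?_
      rw [mem_sdiff] at hv
      congr 1
      have e2 : T \ insert v D = (T \ D).filter (fun u => v < u) ∪ (T \ D).filter (fun u => u < v) := by
        ext u
        simp only [mem_sdiff, mem_insert, not_or, mem_union, mem_filter]
        constructor
        · rintro ⟨h1, h2, h3⟩
          rcases lt_or_gt_of_ne h2 with h4 | h4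
          · exact Or.inr ⟨⟨h1, h3⟩, h4⟩
          · exact Or.inl ⟨⟨h1, h3⟩, h4⟩
        · rintro (⟨⟨h1, h2⟩, h3⟩ | ⟨⟨h1, h2⟩, h3⟩)
          · exact ⟨h1, ne_of_gt h3, h2⟩
          · exact ⟨h1, ne_of_lt h3, h2⟩
      rw [e2, prod_union]
      · congr 1
        · refine prod_congr rfl fun u hu => ?_
          rw [par_insert D u v hv.2, if_neg (mem_filter.mp hu).2.not_gt, add_zero]
        · refine prod_congr rfl fun u hu => ?_
          rw [par_insert D u v hv.2, if_pos (mem_filter.mp hu).2, add_comm]
      · rw [disjoint_left]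
        intro u h3 h4
        exact absurd (mem_filter.mp h3).2 (mem_filter.mp h4).2.not_gt
    rw [sum_congr rfl e1]
    have e3 : ∑ D ∈ T.powerset, ∑ v ∈ T \ D, φ D * ∏ u ∈ T \ insert v D, par K (insert v D) u =
        ∑ D ∈ T.powerset, ∑ v ∈ D, φ (D.erase v) * ∏ u ∈ T \ D, par K D u := by
      rw [sum_sigma', sum_sigma']
      refine sum_nbij' (fun x => ⟨insert x.2 x.1, x.2⟩) (fun x => ⟨x.1.erase x.2, x.2⟩) ?_ ?_ ?_ ?_ ?_
      · rintro ⟨D, v⟩ h
        simp only [mem_sigma, mem_powerset, mem_sdiff] at h ⊢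
        exact ⟨insert_subset h.2.1 h.1, mem_insert_self v D⟩
      · rintro ⟨D, v⟩ h
        simp only [mem_sigma, mem_powerset, mem_sdiff] at h ⊢
        exact ⟨(erase_subset v D).trans h.1, h.1 h.2, notMem_erase v D⟩
      · rintro ⟨D, v⟩ h
        simp only [mem_sigma, mem_powerset, mem_sdiff] at h
        simp only [erase_insert h.2.2]
      · rintro ⟨D, v⟩ h
        simp only [mem_sigma, mem_powerset] at h
        simp only [insert_erase h.2]
      · rintro ⟨D, v⟩ h
        simp only [mem_sigma, mem_powerset, mem_sdiff] at h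
        simp only [erase_insert h.2.2]
    rw [e3]
    refine sum_eq_zero fun D hD => ?_
    rw [← sum_mul, hφ D (mem_powerset.mp hD), zero_mul]
  exact CharTwo.add_eq_zero.mp h1

theorem psi_small {m : ℕ} (φ : Finset V → K) (hm : ∀ T, φ T ≠ 0 → T.card = m) (T : Finset V) (hT : T.card < m) :
    psi φ T = 0 := by
  refine sum_eq_zero fun D hD => ?_
  by_cases h : φ D = 0
  · rw [h, zero_mul]
  · have h1 := hm D h
    have h2 := card_le_card (mem_powerset.mp hD)
    omega

theorem psi_eq {m : ℕ} (φ : Finset V → K) (hm : ∀ T, φ T ≠ 0 → T.card = m) (T : Finset V) (hT : T.card = m) :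
    psi φ T = φ T := by
  rw [psi, sum_eq_single T]
  · simp
  · intro D hD hne
    by_cases h : φ D = 0
    · rw [h, zero_mul]
    · have h1 := hm D h
      exact absurd (eq_of_subset_of_card_le (mem_powerset.mp hD) (by omega)) hne
  · intro h
    exact absurd (mem_powerset.mpr subset_rfl) h

/-- the number of intermediate sets is even -/
theorem sum_const_Icc (D T : Finset V) (h : D ⊆ T) (a : K) :
    ∑ _T' ∈ Icc D T, a = if D = T then a else 0 := by
  rw [sum_const, Finset.card_Icc_finset h]
  split_ifs with h1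
  · rw [h1, Nat.sub_self, pow_zero, one_smul]
  · have h2 : D.card < T.card := card_lt_card (lt_of_le_of_ne h h1)
    obtain ⟨k, hk⟩ : ∃ k, T.card - D.card = k + 1 := ⟨T.card - D.card - 1, by omega⟩
    rw [hk, pow_succ, nsmul_eq_mul, Nat.cast_mul]
    have h3 : ((2 : ℕ) : K) = 0 := CharP.cast_eq_zero K 2
    rw [h3, mul_zero, zero_mul]

/-- Moebius inversion in characteristic two -/
theorem zeta_zeta (f : Finset V → K) (T : Finset V) :
    ∑ T' ∈ T.powerset, ∑ S ∈ T'.powerset, f S = f T := by
  rw [sum_comm' (t' := T.powerset) (s' := fun D => Icc D T)]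
  · rw [sum_congr rfl fun D hD => sum_const_Icc D T (mem_powerset.mp hD) (f D), sum_ite_eq' T.powerset T f,
      if_pos (mem_powerset.mpr subset_rfl)]
  · intro T' D
    simp only [mem_powerset, mem_Icc]
    constructor
    · rintro ⟨h1, h2⟩
      exact ⟨⟨h2, h1⟩, h2.trans h1⟩
    · rintro ⟨⟨h2, h1⟩, _⟩
      exact ⟨h1, h2⟩

end Char2

section Xi

variable {V : Type} [LinearOrder V] {K : Type} [Field K] [CharP K 2] (L : SimpleGraph V)

theorem exists_nad (T : Finset V) (h : ¬ L.IsClique (T : Set V)) :
    ∃ v ∈ T, ∃ w ∈ T, v ≠ w ∧ ¬ L.Adj v w := by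
  by_contra h1
  push Not at h1
  exact h fun v hv w hw hne => h1 v hv w hw hne

open Classical in
/-- a vertex of `T` which is not adjacent to another vertex of `T` -/
noncomputable def nv (T : Finset V) (hT : ¬ L.IsClique (T : Set V)) : V := (exists_nad L T hT).choose

open Classical in
/-- the coefficients -/
noncomputable def xi (φ : Finset V → K) (A B T : Finset V) : K :=
  if h : L.IsClique (T : Set V) then psi φ T
  else if nv L T h ∈ A then ∑ S ∈ T.ssubsets.attach, xi φ B A S.1 else 0
termination_by T.card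
decreasing_by exact card_lt_card (mem_ssubsets.mp S.2)

variable {L}

theorem xi_clique (φ : Finset V → K) (A B T : Finset V) (h : L.IsClique (T : Set V)) :
    xi L φ A B T = psi φ T := by
  rw [xi, dif_pos h]

theorem xi_not (φ : Finset V → K) (A B T : Finset V) (h : ¬ L.IsClique (T : Set V)) :
    xi L φ A B T = if nv L T h ∈ A then ∑ S ∈ T.ssubsets, xi L φ B A S else 0 := by
  rw [xi, dif_neg h, sum_attach T.ssubsets (fun S => xi L φ B A S)]

theorem sum_powerset_ss (f : Finset V → K) (T : Finset V) :
    ∑ S ∈ T.powerset, f S = f T + ∑ S ∈ T.ssubsets, f S := by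
  rw [ssubsets, ← add_sum_erase _ _ (mem_powerset.mpr (subset_refl T))]

/-- exactly one of the two sides -/
theorem nv_side {A B T : Finset V} (hA : L.IsClique (A : Set V)) (hB : L.IsClique (B : Set V))
    (hT : T ⊆ A ∪ B) (h : ¬ L.IsClique (T : Set V)) : (nv L T h ∈ A ∧ nv L T h ∉ B) ∨ (nv L T h ∉ A ∧ nv L T h ∈ B) := by
  have h1 := (exists_nad L T h).choose_spec
  obtain ⟨h2, w, hw, hne, hna⟩ := h1
  have e : nv L T h = (exists_nad L T h).choose := rfl
  rw [← e] at h2 hne hna
  have k1 := hT h2
  have k2 := hT hw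
  have k3 : ¬ (nv L T h ∈ A ∧ w ∈ A) := fun h3 => hna (hA h3.1 h3.2 hne)
  have k4 : ¬ (nv L T h ∈ B ∧ w ∈ B) := fun h3 => hna (hB h3.1 h3.2 hne)
  rw [mem_union] at k1 k2
  tauto

theorem nv_insert {A B T : Finset V} {v : V} (hB : L.IsClique (B : Set V))
    (hA' : L.IsClique ((insert v A : Finset V) : Set V)) (hT : T ⊆ A ∪ B) (h : ¬ L.IsClique (T : Set V)) :
    (nv L T h ∈ insert v A ↔ nv L T h ∈ A) := by
  constructor
  · intro h0
    rcases mem_insert.mp h0 with h1 | h1
    · by_contra h2
      have h3 := (exists_nad L T h).choose_spec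
      obtain ⟨h4, w, hw, hne, hna⟩ := h3
      have e : nv L T h = (exists_nad L T h).choose := rfl
      rw [← e] at h4 hne hna
      have k1 : nv L T h ∈ B := by
        rcases mem_union.mp (hT h4) with h5 | h5
        · exact absurd h5 h2
        · exact h5
      rcases mem_union.mp (hT hw) with h5 | h5
      · exact hna (hA' (mem_coe.mpr h0) (mem_coe.mpr (mem_insert_of_mem h5)) hne)
      · exact hna (hB (mem_coe.mpr k1) (mem_coe.mpr h5) hne)
    · exact h1
  · exact fun h1 => mem_insert_of_mem h1

/-- independence of the clique containing the restriction to `T` -/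
theorem xi_insert (φ : Finset V → K) {A B : Finset V} {v : V} (hA : L.IsClique (A : Set V))
    (hB : L.IsClique (B : Set V)) (hA' : L.IsClique ((insert v A : Finset V) : Set V)) (T : Finset V)
    (hT : T ⊆ A ∪ B) : xi L φ (insert v A) B T = xi L φ A B T ∧ xi L φ B (insert v A) T = xi L φ B A T := by
  induction T using Finset.strongInduction with
  | H T ih =>
    by_cases h : L.IsClique (T : Set V)
    · rw [xi_clique _ _ _ _ h, xi_clique _ _ _ _ h, xi_clique _ _ _ _ h, xi_clique _ _ _ _ h]
      exact ⟨rfl, rfl⟩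
    · have e1 : ∑ S ∈ T.ssubsets, xi L φ B (insert v A) S = ∑ S ∈ T.ssubsets, xi L φ B A S :=
        sum_congr rfl fun S hS => (ih S (mem_ssubsets.mp hS) ((mem_ssubsets.mp hS).1.trans hT)).2
      have e2 : ∑ S ∈ T.ssubsets, xi L φ (insert v A) B S = ∑ S ∈ T.ssubsets, xi L φ A B S :=
        sum_congr rfl fun S hS => (ih S (mem_ssubsets.mp hS) ((mem_ssubsets.mp hS).1.trans hT)).1
      rw [xi_not _ _ _ _ h, xi_not _ _ _ _ h, xi_not _ _ _ _ h, xi_not _ _ _ _ h, e1, e2]
      refine ⟨?_, rfl⟩
      simp only [nv_insert hB hA' hT h]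

/-- the symmetry -/
theorem xi_symm (φ : Finset V → K) (hφ : ∀ D : Finset V, L.IsClique (D : Set V) → ∑ v ∈ D, φ (D.erase v) = 0)
    {A B : Finset V} (hA : L.IsClique (A : Set V)) (hB : L.IsClique (B : Set V)) (T : Finset V)
    (hT : T ⊆ A ∪ B) : xi L φ A B T = ∑ S ∈ T.powerset, xi L φ B A S ∧
      xi L φ B A T = ∑ S ∈ T.powerset, xi L φ A B S := by
  induction T using Finset.strongInduction with
  | H T ih =>
    by_cases h : L.IsClique (T : Set V)
    · have h1 : ∀ S ⊆ T, L.IsClique (S : Set V) := fun S hS => h.subset (coe_subset.mpr hS)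
      have h2 := psi_symm φ T fun D hD => hφ D (h1 D hD)
      constructor
      · rw [xi_clique _ _ _ _ h, ← h2]
        exact sum_congr rfl fun S hS => (xi_clique _ _ _ _ (h1 S (mem_powerset.mp hS))).symm
      · rw [xi_clique _ _ _ _ h, ← h2]
        exact sum_congr rfl fun S hS => (xi_clique _ _ _ _ (h1 S (mem_powerset.mp hS))).symm
    · have h1 : ∀ S ∈ T.ssubsets, xi L φ A B S = ∑ R ∈ S.powerset, xi L φ B A R := fun S hS =>
        (ih S (mem_ssubsets.mp hS) ((mem_ssubsets.mp hS).1.trans hT)).1
      have h3 : ∑ S ∈ T.ssubsets, xi L φ A B S = ∑ S ∈ T.ssubsets, xi L φ B A S := by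
        rw [sum_congr rfl h1]
        have h4 := zeta_zeta (fun R => xi L φ B A R) T
        rw [sum_powerset_ss (fun S => ∑ R ∈ S.powerset, xi L φ B A R) T,
          sum_powerset_ss (fun R => xi L φ B A R) T] at h4
        have h2 : (2 : K) = 0 := CharTwo.two_eq_zero
        linear_combination h4 - (∑ S ∈ T.ssubsets, xi L φ B A S) * h2
      have e1 := xi_not φ A B T h
      have e2 := xi_not φ B A T h
      rw [sum_powerset_ss, sum_powerset_ss, e1, e2]
      rcases nv_side hA hB hT h with ⟨k1, k2⟩ | ⟨k1, k2⟩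
      · rw [if_pos k1, if_neg k2, h3]
        refine ⟨by rw [zero_add], ?_⟩
        rw [CharTwo.add_self_eq_zero]
      · rw [if_neg k1, if_pos k2, h3]
        refine ⟨?_, by rw [zero_add]⟩
        rw [CharTwo.add_self_eq_zero]

theorem xi_small {m : ℕ} (φ : Finset V → K) (hm : ∀ T, φ T ≠ 0 → T.card = m) (T : Finset V) :
    ∀ A B : Finset V, T.card < m → xi L φ A B T = 0 := by
  induction T using Finset.strongInduction with
  | H T ih =>
    intro A B hT
    by_cases h : L.IsClique (T : Set V)
    · rw [xi_clique _ _ _ _ h, psi_small φ hm T hT]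
    · rw [xi_not _ _ _ _ h]
      split_ifs
      · refine sum_eq_zero fun S hS => ?_
        have h1 := mem_ssubsets.mp hS
        exact ih S h1 B A ((card_lt_card h1).trans hT)
      · rfl

theorem xi_eq {m : ℕ} (φ : Finset V → K) (hm : ∀ T, φ T ≠ 0 → T.card = m) (T : Finset V)
    (hT : T.card = m) (h : L.IsClique (T : Set V)) (A B : Finset V) : xi L φ A B T = φ T := by
  rw [xi_clique _ _ _ _ h, psi_eq φ hm T hT]

end Xi

end Pool.Agent.W2helper34.AD
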