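import Mathlib

/-!
# Octahedralizations and the homology of flag complexes
-/

set_option autoImplicit false

namespace Pool.Agent.W2helper34.AD

open Finset

/-- The octahedralization of `L`: every vertex `v` is replaced by two non-adjacent vertices `(v, false)`, `(v, true)`.
The right-angled Coxeter group of `Oct L` is commensurable with the right-angled Artin group of `L`. -/
def Oct {V : Type} (L : SimpleGraph V) : SimpleGraph (V × Bool) where
  Adj x y := L.Adj x.1 y.1
  symm := ⟨fun _ _ h => h.symm⟩
  loopless := ⟨fun _ h => h.ne rfl⟩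

/-- The reduced homology with coefficients in `K` (of characteristic two) of the flag complex of `L` vanishes in the
degree `m - 1`: the cycles supported on the cliques with `m` elements are boundaries. -/
def Acyc {n : ℕ} (K : Type) [Field K] (L : SimpleGraph (Fin n)) (m : ℕ) : Prop :=
  ∀ z : Finset (Fin n) → K, (∀ A, z A ≠ 0 → L.IsClique (A : Set (Fin n)) ∧ A.card = m) →
    (∀ A : Finset (Fin n), ∑ v ∈ Aᶜ, z (insert v A) = 0) →
    ∃ y : Finset (Fin n) → K, (∀ A, y A ≠ 0 → L.IsClique (A : Set (Fin n)) ∧ A.card = m + 1) ∧
      ∀ A : Finset (Fin n), ∑ v ∈ Aᶜ, y (insert v A) = z A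

end Pool.Agent.W2helper34.AD
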