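import Pool.Agent.W2helper34.AD.Alg
import Pool.Agent.W2helper34.AD.OctDef

/-!
# The symmetric cycle on the deleted join of the octahedralization
-/

set_option autoImplicit false
set_option linter.unusedSectionVars false
set_option linter.unusedVariables false

namespace Pool.Agent.W2helper34.AD

open Finset

section

variable {V : Type} [LinearOrder V]

/-- the shadow -/
def sh (α : Finset (V × Bool)) : Finset V := α.image Prod.fst

theorem mem_sh {α : Finset (V × Bool)} {v : V} : v ∈ sh α ↔ (v, true) ∈ α ∨ (v, false) ∈ α := by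
  simp only [sh, mem_image, Prod.exists]
  constructor
  · rintro ⟨a, b, h, rfl⟩
    cases b
    · exact Or.inr h
    · exact Or.inl h
  · rintro (h | h)
    · exact ⟨v, true, h, rfl⟩
    · exact ⟨v, false, h, rfl⟩

/-- the vertices with the wrong sign -/
def Dd (α β : Finset (V × Bool)) : Finset V :=
  (α.filter (fun x => x.2 = true)).image Prod.fst ∪ (β.filter (fun x => x.2 = false)).image Prod.fst

theorem mem_Dd {α β : Finset (V × Bool)} {v : V} : v ∈ Dd α β ↔ (v, true) ∈ α ∨ (v, false) ∈ β := by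
  simp [Dd]

/-- no two vertices over the same vertex -/
def Sg (α : Finset (V × Bool)) : Prop := ∀ v, ¬ ((v, true) ∈ α ∧ (v, false) ∈ α)

theorem Dd_sub (α β : Finset (V × Bool)) : Dd α β ⊆ sh α ∪ sh β := by
  intro v hv
  rw [mem_union, mem_sh, mem_sh]
  rw [mem_Dd] at hv
  tauto

theorem Dd_swap {α β : Finset (V × Bool)} (hd : Disjoint α β) (h1 : Sg α) (h2 : Sg β) :
    Dd β α = (sh α ∪ sh β) \ Dd α β := by
  ext v
  rw [mem_sdiff, mem_union, mem_sh, mem_sh, mem_Dd, mem_Dd]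
  have k1 := h1 v
  have k2 := h2 v
  have k3 : ¬ ((v, true) ∈ α ∧ (v, true) ∈ β) := fun h => disjoint_left.mp hd h.1 h.2
  have k4 : ¬ ((v, false) ∈ α ∧ (v, false) ∈ β) := fun h => disjoint_left.mp hd h.1 h.2
  tauto

theorem sh_insert (v : V) (b : Bool) (α : Finset (V × Bool)) : sh (insert (v, b) α) = insert v (sh α) := by
  rw [sh, image_insert]
  rfl

variable {K : Type} [Field K] [CharP K 2]

/-- the sum over the sets above `D` -/
theorem sum_above (f : Finset V → K) (D U : Finset V) (hD : D ⊆ U) :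
    ∑ T ∈ Icc D U, ∑ S ∈ T.powerset, f S = ∑ S ∈ Icc (U \ D) U, f S := by
  rw [sum_comm' (t' := U.powerset) (s' := fun S => Icc (D ∪ S) U)]
  · have e1 : ∀ S ∈ U.powerset, ∑ _T ∈ Icc (D ∪ S) U, f S = if D ∪ S = U then f S else 0 := by
      intro S hS
      exact sum_const_Icc (D ∪ S) U (union_subset hD (mem_powerset.mp hS)) (f S)
    rw [sum_congr rfl e1, ← sum_filter]
    refine sum_congr ?_ fun _ _ => rfl
    ext S
    simp only [mem_filter, mem_powerset, mem_Icc]
    constructor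
    · rintro ⟨h1, h2⟩
      refine ⟨?_, h1⟩
      intro v hv
      rw [mem_sdiff, ← h2, mem_union] at hv
      tauto
    · rintro ⟨h1, h2⟩
      refine ⟨h2, subset_antisymm (union_subset hD h2) ?_⟩
      intro v hv
      by_cases h3 : v ∈ D
      · exact mem_union_left _ h3
      · exact mem_union_right _ (h1 (mem_sdiff.mpr ⟨hv, h3⟩))
  · intro T S
    simp only [mem_powerset, mem_Icc]
    constructor
    · rintro ⟨⟨h1, h2⟩, h3⟩
      exact ⟨⟨union_subset h1 h3, h2⟩, h3.trans h2⟩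
    · rintro ⟨⟨h1, h2⟩, _⟩
      exact ⟨⟨subset_union_left.trans h1, h2⟩, subset_union_right.trans h1⟩

variable (L : SimpleGraph V)

open Classical in
/-- the symmetric cycle -/
noncomputable def ZO (z φ : Finset V → K) (α β : Finset (V × Bool)) : K :=
  if Disjoint α β ∧ Sg α ∧ Sg β then
    z (sh α) * z (sh β) * ∑ T ∈ Icc (Dd α β) (sh α ∪ sh β), xi L φ (sh α) (sh β) T else 0

variable {L}

theorem ZO_symm {z φ : Finset V → K} (hz : ∀ A, z A ≠ 0 → L.IsClique (A : Set V))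
    (hφ : ∀ D : Finset V, L.IsClique (D : Set V) → ∑ v ∈ D, φ (D.erase v) = 0) (α β : Finset (V × Bool)) :
    ZO L z φ α β = ZO L z φ β α := by
  rw [ZO, ZO]
  by_cases h : Disjoint α β ∧ Sg α ∧ Sg β
  · rw [if_pos h, if_pos ⟨h.1.symm, h.2.2, h.2.1⟩]
    by_cases hA : z (sh α) = 0
    · rw [hA]; ring
    by_cases hB : z (sh β) = 0
    · rw [hB]; ring
    have e1 : ∑ T ∈ Icc (Dd α β) (sh α ∪ sh β), xi L φ (sh α) (sh β) T =
        ∑ T ∈ Icc (Dd β α) (sh β ∪ sh α), xi L φ (sh β) (sh α) T := by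
      rw [union_comm (sh β), Dd_swap h.1 h.2.1 h.2.2, ← sum_above _ _ _ (Dd_sub α β)]
      refine sum_congr rfl fun T hT => ?_
      exact (xi_symm φ hφ (hz _ hA) (hz _ hB) T (mem_Icc.mp hT).2).1
    rw [e1]
    ring
  · rw [if_neg h, if_neg]
    exact fun h2 => h ⟨h2.1.symm, h2.2.2, h2.2.1⟩

theorem Dd_insert_false (v : V) (α β : Finset (V × Bool)) : Dd (insert (v, false) α) β = Dd α β := by
  ext u
  rw [mem_Dd, mem_Dd, mem_insert]
  simp

theorem Dd_insert_true (v : V) (α β : Finset (V × Bool)) : Dd (insert (v, true) α) β = insert v (Dd α β) := by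
  ext u
  rw [mem_Dd, mem_insert, mem_insert, mem_Dd]
  simp only [Prod.mk.injEq, and_true]
  tauto

/-- splitting of an interval -/
theorem Icc_split (f : Finset V → K) (D U : Finset V) (v : V) (hv : v ∉ D) (hU : v ∉ U) :
    ∑ T ∈ Icc D (insert v U), f T + ∑ T ∈ Icc (insert v D) (insert v U), f T = ∑ T ∈ Icc D U, f T := by
  have e1 : Icc D (insert v U) = Icc D U ∪ Icc (insert v D) (insert v U) := by
    ext T
    simp only [mem_Icc, mem_union]
    constructor
    · rintro ⟨h1, h2⟩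
      by_cases h3 : v ∈ T
      · exact Or.inr ⟨insert_subset h3 h1, h2⟩
      · exact Or.inl ⟨h1, (subset_insert_iff_of_notMem h3).mp h2⟩
    · rintro (⟨h1, h2⟩ | ⟨h1, h2⟩)
      · exact ⟨h1, h2.trans (subset_insert v U)⟩
      · exact ⟨(subset_insert v D).trans h1, h2⟩
  have e2 : Disjoint (Icc D U) (Icc (insert v D) (insert v U)) := by
    rw [disjoint_left]
    intro T h1 h2
    exact hU ((mem_Icc.mp h1).2 ((mem_Icc.mp h2).1 (mem_insert_self v D)))
  rw [e1, sum_union e2, add_assoc, CharTwo.add_self_eq_zero, add_zero]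

/-- the contribution of the two vertices over `v` -/
theorem ZO_two {z φ : Finset V → K} (hz : ∀ A, z A ≠ 0 → L.IsClique (A : Set V)) {ρ τ : Finset (V × Bool)}
    (hd : Disjoint ρ τ) (h1 : Sg ρ) (h2 : Sg τ) (v : V) (hv : v ∉ sh ρ) (hρ : L.IsClique (sh ρ : Set V)) :
    ∑ b ∈ univ.filter (fun b : Bool => (v, b) ∉ ρ ∪ τ), ZO L z φ (insert (v, b) ρ) τ =
      z (insert v (sh ρ)) * z (sh τ) * ∑ T ∈ Icc (Dd ρ τ) (sh ρ ∪ sh τ), xi L φ (sh ρ) (sh τ) T := by
  have hvt : (v, true) ∉ ρ := fun h => hv (mem_sh.mpr (Or.inl h))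
  have hvf : (v, false) ∉ ρ := fun h => hv (mem_sh.mpr (Or.inr h))
  have hS : ∀ b, Sg (insert (v, b) ρ) := by
    intro b u hu
    simp only [mem_insert, Prod.mk.injEq] at hu
    obtain ⟨h3, h4⟩ := hu
    rcases h3 with ⟨rfl, h3⟩ | h3
    · rcases h4 with ⟨_, h4⟩ | h4
      · rw [← h3] at h4; exact absurd h4 (by simp)
      · exact hvf h4
    · rcases h4 with ⟨rfl, h4⟩ | h4
      · exact hvt h3
      · exact h1 u ⟨h3, h4⟩
  have hval : ∀ b, (v, b) ∉ τ → ZO L z φ (insert (v, b) ρ) τ = z (insert v (sh ρ)) * z (sh τ) *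
      ∑ T ∈ Icc (Dd (insert (v, b) ρ) τ) (insert v (sh ρ) ∪ sh τ), xi L φ (insert v (sh ρ)) (sh τ) T := by
    intro b hb
    have hdis : Disjoint (insert (v, b) ρ) τ := disjoint_insert_left.mpr ⟨hb, hd⟩
    rw [ZO, if_pos ⟨hdis, hS b, h2⟩, sh_insert]
  by_cases hzA : z (insert v (sh ρ)) = 0
  · rw [hzA, zero_mul, zero_mul]
    refine sum_eq_zero fun b hb => ?_
    rw [mem_filter, mem_union, not_or] at hb
    rw [hval b hb.2.2, hzA, zero_mul, zero_mul]
  by_cases hzB : z (sh τ) = 0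
  · rw [hzB, mul_zero, zero_mul]
    refine sum_eq_zero fun b hb => ?_
    rw [mem_filter, mem_union, not_or] at hb
    rw [hval b hb.2.2, hzB, mul_zero, zero_mul]
  have hA' := hz _ hzA
  have hB := hz _ hzB
  have hx : ∀ (D : Finset V), ∑ T ∈ Icc D (sh ρ ∪ sh τ), xi L φ (insert v (sh ρ)) (sh τ) T =
      ∑ T ∈ Icc D (sh ρ ∪ sh τ), xi L φ (sh ρ) (sh τ) T := fun D =>
    sum_congr rfl fun T hT => (xi_insert φ hρ hB hA' T (mem_Icc.mp hT).2).1
  by_cases hvτ : v ∈ sh τ
  · -- the twin is in `τ`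
    have hU : insert v (sh ρ) ∪ sh τ = sh ρ ∪ sh τ := by
      rw [insert_union, insert_eq_of_mem (mem_union_right _ hvτ)]
    rcases mem_sh.mp hvτ with h3 | h3
    · have h4 : (v, false) ∉ τ := fun h => h2 v ⟨h3, h⟩
      have e : univ.filter (fun b : Bool => (v, b) ∉ ρ ∪ τ) = {false} := by
        ext b
        cases b <;> simp [h3, h4, hvt, hvf]
      rw [e, sum_singleton, hval false h4, Dd_insert_false, hU, hx]
    · have h4 : (v, true) ∉ τ := fun h => h2 v ⟨h, h3⟩
      have e : univ.filter (fun b : Bool => (v, b) ∉ ρ ∪ τ) = {true} := by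
        ext b
        cases b <;> simp [h3, h4, hvt, hvf]
      have h5 : insert v (Dd ρ τ) = Dd ρ τ := insert_eq_of_mem (mem_Dd.mpr (Or.inr h3))
      rw [e, sum_singleton, hval true h4, Dd_insert_true, hU, h5, hx]
  · have h3 : (v, true) ∉ τ := fun h => hvτ (mem_sh.mpr (Or.inl h))
    have h4 : (v, false) ∉ τ := fun h => hvτ (mem_sh.mpr (Or.inr h))
    have e : univ.filter (fun b : Bool => (v, b) ∉ ρ ∪ τ) = {false, true} := by
      ext b
      cases b <;> simp [h3, h4, hvt, hvf]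
    have hvU : v ∉ sh ρ ∪ sh τ := by
      rw [mem_union, not_or]; exact ⟨hv, hvτ⟩
    rw [e, sum_insert (by simp), sum_singleton, hval false h4, hval true h3, Dd_insert_false, Dd_insert_true,
      insert_union, ← mul_add, Icc_split _ _ _ v (fun h => hvU (Dd_sub ρ τ h)) hvU, hx]

/-- the cycle condition -/
theorem ZO_cycle [Fintype V] {z φ : Finset V → K} (hz : ∀ A, z A ≠ 0 → L.IsClique (A : Set V))
    (hcyc : ∀ A : Finset V, ∑ v ∈ Aᶜ, z (insert v A) = 0) {ρ τ : Finset (V × Bool)} (hd : Disjoint ρ τ) :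
    ∑ x ∈ (ρ ∪ τ)ᶜ, ZO L z φ (insert x ρ) τ = 0 := by
  classical
  by_cases h2 : Sg τ
  swap
  · refine sum_eq_zero fun x _ => ?_
    rw [ZO, if_neg fun h => h2 h.2.2]
  by_cases h1 : Sg ρ
  swap
  · refine sum_eq_zero fun x _ => ?_
    rw [ZO, if_neg]
    rintro ⟨_, h3, _⟩
    refine h1 fun v hv => h3 v ⟨mem_insert_of_mem hv.1, mem_insert_of_mem hv.2⟩
  by_cases hall : ∀ v ∉ sh ρ, z (insert v (sh ρ)) = 0
  · refine sum_eq_zero fun x hx => ?_
    rw [ZO]
    split_ifs with h3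
    · have h4 : x.1 ∉ sh ρ := by
        intro h5
        rw [mem_compl, mem_union, not_or] at hx
        obtain ⟨v, b⟩ := x
        have h6 := h3.2.1 v
        rcases mem_sh.mp h5 with h7 | h7
        · cases b
          · exact h6 ⟨mem_insert_of_mem h7, mem_insert_self _ _⟩
          · exact hx.1 h7
        · cases b
          · exact hx.1 h7
          · exact h6 ⟨mem_insert_self _ _, mem_insert_of_mem h7⟩
      obtain ⟨v, b⟩ := x
      rw [sh_insert, hall v h4]
      ring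
    · rfl
  push Not at hall
  obtain ⟨v0, hv0, hz0⟩ := hall
  have hρ : L.IsClique (sh ρ : Set V) := (hz _ hz0).subset (coe_subset.mpr (subset_insert v0 _))
  have e1 : ∑ x ∈ (ρ ∪ τ)ᶜ, ZO L z φ (insert x ρ) τ =
      ∑ v : V, ∑ b ∈ univ.filter (fun b : Bool => (v, b) ∉ ρ ∪ τ), ZO L z φ (insert (v, b) ρ) τ := by
    rw [sum_sigma']
    refine sum_nbij' (fun x => ⟨x.1, x.2⟩) (fun x => (x.1, x.2)) ?_ ?_ ?_ ?_ ?_
    · rintro ⟨v, b⟩ h
      simpa using h
    · rintro ⟨v, b⟩ h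
      simpa using h
    · rintro ⟨v, b⟩ _
      rfl
    · rintro ⟨v, b⟩ _
      rfl
    · rintro ⟨v, b⟩ _
      rfl
  have e2 : ∀ v : V, ∑ b ∈ univ.filter (fun b : Bool => (v, b) ∉ ρ ∪ τ), ZO L z φ (insert (v, b) ρ) τ =
      if v ∈ (sh ρ)ᶜ then z (insert v (sh ρ)) * (z (sh τ) *
        ∑ T ∈ Icc (Dd ρ τ) (sh ρ ∪ sh τ), xi L φ (sh ρ) (sh τ) T) else 0 := by
    intro v
    by_cases hv : v ∈ sh ρ
    · rw [if_neg (by simpa using hv)]
      refine sum_eq_zero fun b hb => ?_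
      rw [mem_filter, mem_union, not_or] at hb
      rw [ZO, if_neg]
      rintro ⟨_, h3, _⟩
      rcases mem_sh.mp hv with h7 | h7
      · cases b
        · exact h3 v ⟨mem_insert_of_mem h7, mem_insert_self _ _⟩
        · exact hb.2.1 h7
      · cases b
        · exact hb.2.1 h7
        · exact h3 v ⟨mem_insert_self _ _, mem_insert_of_mem h7⟩
    · rw [if_pos (by simpa using hv), ZO_two hz hd h1 h2 v hv hρ, mul_assoc]
  rw [e1, sum_congr rfl fun v _ => e2 v, ← sum_filter]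
  have e3 : univ.filter (fun v => v ∈ (sh ρ)ᶜ) = (sh ρ)ᶜ := by
    ext v; simp
  rw [e3, ← sum_mul, hcyc, zero_mul]

end

end Pool.Agent.W2helper34.AD
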