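import Pool.Agent.R782.Bal.Emb
import Pool.Agent.TH652.Above

/-!
# The classes `Od` and `Ev` of finite graphs
-/

set_option autoImplicit false

namespace Pool.Agent.W2helper34.AD

open Finset Pool.Agent.W907.SG
open Pool.Agent.R782.Bal (Rea)
open Pool.Agent.TH652.Join (join)

/-- The flag complex of `G` is embedded in a sphere of dimension `n - 1` in one of the following two ways. -/
inductive EmbS (n : ℕ) {V : Type} (G : SimpleGraph V) : Prop
  /-- The flag complex of `G` is isomorphic to a subcomplex (not necessarily a full subcomplex) of a simplicial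
  complex `K` of dimension `m - 1 ≤ n - 1` which is a homology manifold over the field with two elements with the
  homology of the `(m-1)`-sphere (`K` need not be a flag complex). -/
  | sphere {N m : ℕ} (K : Finset (Finset (Fin N))) (f : V ↪ Fin N) : m ≤ n →
      Pool.Agent.Y131.KS.HSph K m → (∀ T : Finset V, G.IsClique (T : Set V) → T.map f ∈ K) → EmbS n G
  /-- There is a continuous map from the geometric realization of the flag complex of `G` to the unit sphere of the
  euclidean space of dimension `n` for which disjoint simplices have disjoint images (an almost embedding);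
  for example, the flag complex of `G` is homeomorphic to a subset of that sphere. -/
  | unit (F : (V → ℝ) → EuclideanSpace ℝ (Fin n)) : Finite V → ContinuousOn F (Rea G) →
      (∀ x ∈ Rea G, ‖F x‖ = 1) →
      (∀ x ∈ Rea G, ∀ y ∈ Rea G, (∀ v, x v = 0 ∨ y v = 0) → F x ≠ F y) → EmbS n G

/-- The class `Od`. -/
inductive Od : ∀ {V : Type}, SimpleGraph V → Prop
  /-- Every vertex has a twin, that is another vertex with the same neighbours. -/
  | twin {V : Type} [Finite V] (G : SimpleGraph V) :
      (∀ v, ∃ w, w ≠ v ∧ ∀ u, G.Adj v u ↔ G.Adj w u) → Od G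
  /-- bipartite graphs -/
  | bip {V : Type} [Finite V] (G : SimpleGraph V) (col : V → Fin 2) : (∀ u v, G.Adj u v → col u ≠ col v) → Od G
  /-- suspensions of arbitrary finite graphs -/
  | susp {V : Type} [Finite V] (G : SimpleGraph V) : Od (susp G)
  /-- joins -/
  | join {V U : Type} (G : SimpleGraph V) (H : SimpleGraph U) : Od G → Od H → Od (join G H)
  /-- adding a vertex `v`, where there are two vertices `a`, `b` which are not adjacent to `v` and which are
  adjacent to all the neighbours of `v` -/
  | vert {V : Type} [Finite V] (G : SimpleGraph V) (v a b : V) : a ≠ v → b ≠ v → a ≠ b → ¬ G.Adj v a →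
      ¬ G.Adj v b → (∀ u, G.Adj v u → G.Adj a u ∧ G.Adj b u) → Od (G.induce {v}ᶜ) →
      Od (G.induce (G.neighborSet v)) → Od G
  /-- gluing along a full subcomplex `A ∩ B`, where there are three vertices outside of `A ∩ B` which are adjacent
  to all the vertices of `A ∩ B` -/
  | glue {V : Type} [Finite V] (G : SimpleGraph V) (A B : Set V) (x : Fin 3 ↪ V) : A ∪ B = Set.univ →
      (∀ a ∈ A, a ∉ B → ∀ b ∈ B, b ∉ A → ¬ G.Adj a b) →
      (∀ j, ∀ u ∈ A ∩ B, G.Adj (x j) u) → Od (G.induce A) → Od (G.induce B) → Od (G.induce (A ∩ B)) → Od G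
  /-- isomorphic graphs -/
  | iso {V U : Type} (G : SimpleGraph V) (H : SimpleGraph U) : Nonempty (G ≃g H) → Od G → Od H

/-- The class `Ev`, used for manifolds of even dimension. -/
inductive Ev : ∀ {V : Type}, SimpleGraph V → Prop
  /-- the members of the class `Od` -/
  | odd {V : Type} (G : SimpleGraph V) : Od G → Ev G
  /-- adding a vertex whose link is in the class `Od` -/
  | vert {V : Type} [Finite V] (G : SimpleGraph V) (v : V) : Ev (G.induce {v}ᶜ) →
      Od (G.induce (G.neighborSet v)) → Ev G
  /-- gluing along a full subcomplex `A ∩ B` of the class `Od`, where there is a vertex outside of `A ∩ B` which is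
  adjacent to all the vertices of `A ∩ B` -/
  | glue {V : Type} [Finite V] (G : SimpleGraph V) (A B : Set V) (x : V) : A ∪ B = Set.univ →
      (∀ a ∈ A, a ∉ B → ∀ b ∈ B, b ∉ A → ¬ G.Adj a b) →
      (∀ u ∈ A ∩ B, G.Adj x u) → Ev (G.induce A) → Ev (G.induce B) → Od (G.induce (A ∩ B)) → Ev G
  /-- isomorphic graphs -/
  | iso {V U : Type} (G : SimpleGraph V) (H : SimpleGraph U) : Nonempty (G ≃g H) → Ev G → Ev H

end Pool.Agent.W2helper34.AD
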