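import Pool.Agent.W2helper34.AD.Cyc
import Pool.Agent.R782.Bal.Ex

/-!
# Evaluation of the van Kampen obstruction on the symmetric cycle
-/

set_option autoImplicit false
set_option linter.unusedSectionVars false
set_option linter.unusedVariables false

namespace Pool.Agent.W2helper34.AD

open Finset Pool.Agent.W555.KS Pool.Agent.R782.Bal

/-- the parts of the image under a map which is monotone on the set -/
theorem parts_map {N : ℕ} (f : Fin N ↪ Fin N) (U : Finset (Fin N)) (h : StrictMonoOn f (U : Set (Fin N))) :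
    evenPart (U.map f) = (evenPart U).map f ∧ oddPart (U.map f) = (oddPart U).map f := by
  have h1 : ∀ u ∈ U, ((U.map f).filter (fun w => w < f u)).card = (U.filter (fun w => w < u)).card := by
    intro u hu
    have e : (U.map f).filter (fun w => w < f u) = (U.filter (fun w => w < u)).map f := by
      ext w
      simp only [mem_filter, mem_map]
      constructor
      · rintro ⟨⟨a, ha, rfl⟩, h2⟩
        exact ⟨a, ⟨ha, (h.lt_iff_lt (mem_coe.mpr ha) (mem_coe.mpr hu)).mp h2⟩, rfl⟩
      · rintro ⟨a, ⟨ha, h2⟩, rfl⟩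
        exact ⟨⟨a, ha, rfl⟩, h (mem_coe.mpr ha) (mem_coe.mpr hu) h2⟩
    rw [e, card_map]
  constructor
  · ext w
    simp only [evenPart, mem_filter, mem_map]
    constructor
    · rintro ⟨⟨a, ha, rfl⟩, h2⟩
      exact ⟨a, ⟨ha, by rwa [h1 a ha] at h2⟩, rfl⟩
    · rintro ⟨a, ⟨ha, h2⟩, rfl⟩
      exact ⟨⟨a, ha, rfl⟩, by rwa [h1 a ha]⟩
  · ext w
    simp only [oddPart, mem_filter, mem_map]
    constructor
    · rintro ⟨⟨a, ha, rfl⟩, h2⟩
      exact ⟨a, ⟨ha, by rwa [h1 a ha] at h2⟩, rfl⟩
    · rintro ⟨a, ⟨ha, h2⟩, rfl⟩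
      exact ⟨⟨a, ha, rfl⟩, by rwa [h1 a ha]⟩

section flip

variable {V : Type} [LinearOrder V]

/-- exchange the two vertices over `v` -/
def fl (v : V) : V × Bool ≃ V × Bool where
  toFun x := if x.1 = v then (x.1, !x.2) else x
  invFun x := if x.1 = v then (x.1, !x.2) else x
  left_inv x := by
    by_cases h : x.1 = v
    · simp [h, Prod.ext_iff]
    · simp [h]
  right_inv x := by
    by_cases h : x.1 = v
    · simp [h, Prod.ext_iff]
    · simp [h]

theorem fl_fst (v : V) (x : V × Bool) : (fl v x).1 = x.1 := by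
  simp only [fl, Equiv.coe_fn_mk]
  split_ifs <;> rfl

theorem fl_of_ne (v : V) (x : V × Bool) (h : x.1 ≠ v) : fl v x = x := by
  simp only [fl, Equiv.coe_fn_mk, if_neg h]

theorem fl_self (v : V) (b : Bool) : fl v (v, b) = (v, !b) := by
  simp only [fl, Equiv.coe_fn_mk, if_true]

theorem fl_fl (v : V) (x : V × Bool) : fl v (fl v x) = x := (fl v).left_inv x

theorem mem_map_fl (v : V) (α : Finset (V × Bool)) (x : V × Bool) :
    x ∈ α.map (fl v).toEmbedding ↔ fl v x ∈ α := by
  rw [mem_map]
  constructor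
  · rintro ⟨a, ha, rfl⟩
    rw [Equiv.coe_toEmbedding, fl_fl]
    exact ha
  · intro h
    exact ⟨fl v x, h, fl_fl v x⟩

theorem sh_fl (v : V) (α : Finset (V × Bool)) : sh (α.map (fl v).toEmbedding) = sh α := by
  ext u
  rw [mem_sh, mem_sh, mem_map_fl, mem_map_fl]
  by_cases h : u = v
  · rw [h, fl_self, fl_self]
    exact or_comm
  · rw [fl_of_ne v _ h, fl_of_ne v _ h]

theorem Sg_fl (v : V) (α : Finset (V × Bool)) (h : Sg α) : Sg (α.map (fl v).toEmbedding) := by
  intro u hu
  rw [mem_map_fl, mem_map_fl] at hu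
  by_cases h1 : u = v
  · rw [h1, fl_self, fl_self] at hu
    exact h v ⟨hu.2, hu.1⟩
  · rw [fl_of_ne v _ h1, fl_of_ne v _ h1] at hu
    exact h u hu

theorem Dd_fl (v : V) (α β : Finset (V × Bool)) (T : Finset V) (hv : v ∈ T) (h : Dd α β ⊆ T) :
    Dd (α.map (fl v).toEmbedding) (β.map (fl v).toEmbedding) ⊆ T := by
  intro u hu
  rw [mem_Dd, mem_map_fl, mem_map_fl] at hu
  by_cases h1 : u = v
  · rw [h1]; exact hv
  · rw [fl_of_ne v _ h1, fl_of_ne v _ h1] at hu
    exact h (mem_Dd.mpr hu)

end flip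

section

variable {n : ℕ} {K : Type} [Field K] [CharP K 2] {L : SimpleGraph (Fin n)}

/-- the numbering of the vertices -/
def en (n : ℕ) : Fin n × Bool ≃ Fin (n * 2) :=
  (Equiv.prodCongr (Equiv.refl _) finTwoEquiv.symm).trans finProdFinEquiv

theorem en_val (x : Fin n × Bool) : (en n x : ℕ) = 2 * x.1.val + if x.2 then 1 else 0 := by
  obtain ⟨v, b⟩ := x
  cases b
  · simp [en, finProdFinEquiv, finTwoEquiv]
  · simp [en, finProdFinEquiv, finTwoEquiv]
    omega

theorem en_lt {x y : Fin n × Bool} : en n x < en n y ↔ x.1 < y.1 ∨ (x.1 = y.1 ∧ x.2 = false ∧ y.2 = true) := by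
  rw [Fin.lt_def, en_val, en_val, Fin.lt_def, Fin.ext_iff]
  rcases x with ⟨v, b⟩
  rcases y with ⟨w, c⟩
  cases b <;> cases c <;> simp <;> omega

/-- the first part -/
def al (U : Finset (Fin (n * 2))) : Finset (Fin n × Bool) := (evenPart U).map (en n).symm.toEmbedding

/-- the second part -/
def be (U : Finset (Fin (n * 2))) : Finset (Fin n × Bool) := (oddPart U).map (en n).symm.toEmbedding

theorem mem_al {U : Finset (Fin (n * 2))} {x : Fin n × Bool} : x ∈ al U ↔ en n x ∈ evenPart U := by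
  rw [al, mem_map]
  constructor
  · rintro ⟨a, ha, rfl⟩
    rw [Equiv.coe_toEmbedding, Equiv.apply_symm_apply]
    exact ha
  · intro h
    exact ⟨en n x, h, (en n).symm_apply_apply x⟩

theorem mem_be {U : Finset (Fin (n * 2))} {x : Fin n × Bool} : x ∈ be U ↔ en n x ∈ oddPart U := by
  rw [be, mem_map]
  constructor
  · rintro ⟨a, ha, rfl⟩
    rw [Equiv.coe_toEmbedding, Equiv.apply_symm_apply]
    exact ha
  · intro h
    exact ⟨en n x, h, (en n).symm_apply_apply x⟩

theorem al_be_disj (U : Finset (Fin (n * 2))) : Disjoint (al U) (be U) := by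
  rw [al, be, disjoint_map]
  exact disjoint_filter_filter_not _ _ _

theorem mem_or {U : Finset (Fin (n * 2))} {x : Fin n × Bool} : en n x ∈ U ↔ x ∈ al U ∨ x ∈ be U := by
  rw [mem_al, mem_be, evenPart, oddPart, mem_filter, mem_filter]
  tauto

/-- the flip on numbers -/
def flN (v : Fin n) : Fin (n * 2) ≃ Fin (n * 2) := ((en n).symm.trans (fl v)).trans (en n)

theorem flN_en (v : Fin n) (x : Fin n × Bool) : flN v (en n x) = en n (fl v x) := by
  simp [flN]

theorem flN_flN (v : Fin n) (x : Fin (n * 2)) : flN v (flN v x) = x := by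
  simp [flN, fl_fl]

/-- at most one vertex over `v` -/
def One (v : Fin n) (U : Finset (Fin (n * 2))) : Prop := ¬ (en n (v, true) ∈ U ∧ en n (v, false) ∈ U)

theorem flN_mono (v : Fin n) (U : Finset (Fin (n * 2))) (h : One v U) :
    StrictMonoOn (flN v) (U : Set (Fin (n * 2))) := by
  intro a ha b hb hab
  obtain ⟨x, rfl⟩ := (en n).surjective a
  obtain ⟨y, rfl⟩ := (en n).surjective b
  rw [flN_en, flN_en, en_lt, fl_fst, fl_fst]
  rw [en_lt] at hab
  rcases hab with h1 | ⟨h1, h2, h3⟩
  · exact Or.inl h1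
  · obtain ⟨x1, x2⟩ := x
    obtain ⟨y1, y2⟩ := y
    simp only at h1 h2 h3
    subst h1 h2 h3
    by_cases h4 : x1 = v
    · subst h4
      exact absurd ⟨hb, ha⟩ h
    · rw [fl_of_ne v _ h4, fl_of_ne v _ h4]
      exact Or.inr ⟨rfl, rfl, rfl⟩

theorem al_fl (v : Fin n) (U : Finset (Fin (n * 2))) (h : One v U) :
    al (U.map (flN v).toEmbedding) = (al U).map (fl v).toEmbedding ∧
      be (U.map (flN v).toEmbedding) = (be U).map (fl v).toEmbedding := by
  obtain ⟨h1, h2⟩ := parts_map (flN v).toEmbedding U (flN_mono v U h)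
  rw [al, be, h1, h2, al, be, map_map, map_map, map_map, map_map]
  have e : (flN v).toEmbedding.trans (en n).symm.toEmbedding = (en n).symm.toEmbedding.trans (fl v).toEmbedding := by
    ext x : 1
    simp [flN]
  rw [e]
  exact ⟨rfl, rfl⟩

open Classical in
/-- the summand -/
noncomputable def FF (L : SimpleGraph (Fin n)) (z φ : Finset (Fin n) → K) (T : Finset (Fin n))
    (U : Finset (Fin (n * 2))) : K :=
  if Sg (al U) ∧ Sg (be U) ∧ Dd (al U) (be U) ⊆ T ∧ T ⊆ sh (al U) ∪ sh (be U) then
    z (sh (al U)) * z (sh (be U)) * xi L φ (sh (al U)) (sh (be U)) T else 0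

theorem ZO_eq_FF (z φ : Finset (Fin n) → K) (U : Finset (Fin (n * 2))) :
    ZO L z φ (al U) (be U) = ∑ T : Finset (Fin n), FF L z φ T U := by
  classical
  rw [ZO]
  by_cases h : Sg (al U) ∧ Sg (be U)
  · rw [if_pos ⟨al_be_disj U, h⟩, mul_sum]
    rw [← sum_filter_add_sum_filter_not univ (fun T => T ∈ Icc (Dd (al U) (be U)) (sh (al U) ∪ sh (be U)))]
    rw [sum_eq_zero (s := univ.filter (fun T => ¬ _)), add_zero]
    · rw [filter_mem_eq_inter, univ_inter]
      refine sum_congr rfl fun T hT => ?_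
      rw [mem_Icc] at hT
      rw [FF, if_pos ⟨h.1, h.2, hT⟩]
    · intro T hT
      rw [mem_filter, mem_Icc] at hT
      rw [FF, if_neg]
      rintro ⟨_, _, h3⟩
      exact hT.2 h3
  · rw [if_neg fun h3 => h h3.2]
    symm
    refine sum_eq_zero fun T _ => ?_
    rw [FF, if_neg fun h3 => h ⟨h3.1, h3.2.1⟩]

theorem FF_flip (z φ : Finset (Fin n) → K) (T : Finset (Fin n)) (U : Finset (Fin (n * 2))) (v : Fin n)
    (hv : v ∈ T) (h : One v U) (hF : FF L z φ T U ≠ 0) :
    FF L z φ T (U.map (flN v).toEmbedding) = FF L z φ T U := by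
  obtain ⟨h1, h2⟩ := al_fl v U h
  rw [FF] at hF
  split_ifs at hF with h3
  · rw [FF, FF, if_pos h3, h1, h2, sh_fl, sh_fl, if_pos]
    exact ⟨Sg_fl v _ h3.1, Sg_fl v _ h3.2.1, Dd_fl v _ _ T hv h3.2.2.1, h3.2.2.2⟩
  · exact absurd rfl hF

/-- the full set over `T` -/
def UT (T : Finset (Fin n)) : Finset (Fin (n * 2)) := (T ×ˢ (univ : Finset Bool)).map (en n).toEmbedding

theorem mem_UT {T : Finset (Fin n)} {x : Fin n × Bool} : en n x ∈ UT T ↔ x.1 ∈ T := by
  rw [UT, mem_map]
  constructor
  · rintro ⟨a, ha, h⟩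
    have h1 := (en n).injective h
    rw [← h1]
    exact (mem_product.mp ha).1
  · intro h
    exact ⟨x, mem_product.mpr ⟨h, mem_univ _⟩, rfl⟩

theorem rank_UT (T : Finset (Fin n)) (v : Fin n) (b : Bool) (hv : v ∈ T) :
    ((UT T).filter (fun w => w < en n (v, b))).card =
      2 * (T.filter (fun w => w < v)).card + if b then 1 else 0 := by
  have e : (UT T).filter (fun w => w < en n (v, b)) =
      (((T.filter (fun w => w < v)) ×ˢ (univ : Finset Bool)) ∪ (if b then {(v, false)} else ∅)).map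
        (en n).toEmbedding := by
    ext w
    obtain ⟨x, rfl⟩ := (en n).surjective w
    rw [mem_filter, mem_UT, en_lt, mem_map]
    constructor
    · rintro ⟨h1, h2 | ⟨h2, h3, h4⟩⟩
      · refine ⟨x, mem_union_left _ (mem_product.mpr ⟨mem_filter.mpr ⟨h1, h2⟩, mem_univ _⟩), rfl⟩
      · refine ⟨x, mem_union_right _ ?_, rfl⟩
        simp only at h2 h4
        rw [if_pos h4, mem_singleton]
        exact Prod.ext h2 h3
    · rintro ⟨y, hy, hyx⟩
      have hyx' := (en n).injective hyx
      subst hyx'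
      rcases mem_union.mp hy with h1 | h1
      · have h2 := mem_filter.mp (mem_product.mp h1).1
        exact ⟨h2.1, Or.inl h2.2⟩
      · by_cases hb : b = true
        · rw [if_pos hb, mem_singleton] at h1
          rw [h1]
          exact ⟨hv, Or.inr ⟨rfl, rfl, hb⟩⟩
        · rw [if_neg hb] at h1
          exact absurd h1 (notMem_empty _)
  rw [e, card_map, card_union_of_disjoint, card_product]
  · have : (univ : Finset Bool).card = 2 := rfl
    rw [this]
    split_ifs with hb
    · rw [card_singleton]; ring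
    · rw [card_empty]; ring
  · rw [disjoint_left]
    intro y h1 h2
    have h3 := (mem_filter.mp (mem_product.mp h1).1).2
    split_ifs at h2 with hb
    · rw [mem_singleton] at h2
      rw [h2] at h3
      exact lt_irrefl _ h3
    · exact notMem_empty _ h2

theorem mem_al_UT {T : Finset (Fin n)} {v : Fin n} {b : Bool} : (v, b) ∈ al (UT T) ↔ v ∈ T ∧ b = false := by
  rw [mem_al, evenPart, mem_filter, mem_UT]
  constructor
  · rintro ⟨h1, h2⟩
    refine ⟨h1, ?_⟩
    rw [rank_UT T v b h1] at h2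
    cases b
    · rfl
    · rw [if_pos rfl, Nat.even_add_one] at h2
      exact absurd (even_two_mul _) h2
  · rintro ⟨h1, rfl⟩
    refine ⟨h1, ?_⟩
    rw [rank_UT T v false h1]
    simp

theorem mem_be_UT {T : Finset (Fin n)} {v : Fin n} {b : Bool} : (v, b) ∈ be (UT T) ↔ v ∈ T ∧ b = true := by
  rw [mem_be, oddPart, mem_filter, mem_UT]
  constructor
  · rintro ⟨h1, h2⟩
    refine ⟨h1, ?_⟩
    rw [rank_UT T v b h1] at h2
    cases b
    · rw [if_neg (by simp), add_zero] at h2
      exact absurd (even_two_mul _) h2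
    · rfl
  · rintro ⟨h1, rfl⟩
    refine ⟨h1, ?_⟩
    rw [rank_UT T v true h1, if_pos rfl, Nat.even_add_one, not_not]
    exact even_two_mul _

theorem sh_al_UT (T : Finset (Fin n)) : sh (al (UT T)) = T := by
  ext v
  rw [mem_sh, mem_al_UT, mem_al_UT]
  simp

theorem sh_be_UT (T : Finset (Fin n)) : sh (be (UT T)) = T := by
  ext v
  rw [mem_sh, mem_be_UT, mem_be_UT]
  simp

theorem card_UT (T : Finset (Fin n)) : (UT T).card = 2 * T.card := by
  rw [UT, card_map, card_product]
  have : (univ : Finset Bool).card = 2 := rfl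
  rw [this]; ring

theorem FF_UT {m : ℕ} {z φ : Finset (Fin n) → K} (hz : ∀ A, z A ≠ 0 → L.IsClique (A : Set (Fin n)) ∧ A.card = m)
    (hφ : ∀ A, φ A ≠ 0 → A.card = m) (T : Finset (Fin n)) : FF L z φ T (UT T) = z T * z T * φ T := by
  rw [FF, sh_al_UT, sh_be_UT, if_pos]
  · by_cases h : z T = 0
    · rw [h]; ring
    · rw [xi_eq φ hφ T (hz T h).2 (hz T h).1]
  · refine ⟨?_, ?_, ?_, ?_⟩
    · intro v hv
      rw [mem_al_UT] at hv
      exact absurd hv.1.2 (by simp)
    · intro v hv
      rw [mem_be_UT, mem_be_UT] at hv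
      exact absurd hv.2.2 (by simp)
    · intro v hv
      rw [mem_Dd, mem_al_UT, mem_be_UT] at hv
      rcases hv with h | h
      · exact absurd h.2 (by simp)
      · exact absurd h.2 (by simp)
    · exact subset_union_left

theorem FF_eq {m : ℕ} {z φ : Finset (Fin n) → K} (hz : ∀ A, z A ≠ 0 → L.IsClique (A : Set (Fin n)) ∧ A.card = m)
    (hφ : ∀ A, φ A ≠ 0 → A.card = m) (T : Finset (Fin n)) (U : Finset (Fin (n * 2))) (hF : FF L z φ T U ≠ 0)
    (h1 : T ⊆ sh (al U)) (h2 : T ⊆ sh (be U)) : U = UT T := by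
  rw [FF] at hF
  split_ifs at hF with h3
  · have hA : z (sh (al U)) ≠ 0 := fun h => hF (by rw [h]; ring)
    have hB : z (sh (be U)) ≠ 0 := fun h => hF (by rw [h]; ring)
    have hT : ¬ T.card < m := fun h => hF (by rw [xi_small φ hφ T _ _ h]; ring)
    have hA2 := (hz _ hA).2
    have hB2 := (hz _ hB).2
    have e1 : T = sh (al U) := eq_of_subset_of_card_le h1 (by omega)
    have e2 : T = sh (be U) := eq_of_subset_of_card_le h2 (by omega)
    ext w
    obtain ⟨x, rfl⟩ := (en n).surjective w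
    rw [mem_UT, mem_or]
    obtain ⟨v, b⟩ := x
    constructor
    · rintro (h | h)
      · rw [e1]; exact mem_image_of_mem Prod.fst h
      · rw [e2]; exact mem_image_of_mem Prod.fst h
    · intro hv
      simp only at hv
      have k1 : v ∈ sh (al U) := e1 ▸ hv
      have k2 : v ∈ sh (be U) := e2 ▸ hv
      have hd := al_be_disj U
      rw [mem_sh] at k1 k2
      cases b
      · rcases k1 with k1 | k1
        · rcases k2 with k2 | k2
          · exact absurd k2 (disjoint_left.mp hd k1)
          · exact Or.inr k2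
        · exact Or.inl k1
      · rcases k1 with k1 | k1
        · exact Or.inl k1
        · rcases k2 with k2 | k2
          · exact Or.inr k2
          · exact absurd k2 (disjoint_left.mp hd k1)
  · exact absurd rfl hF

/-- **evaluation** -/
theorem eval_sum {m : ℕ} {z φ : Finset (Fin n) → K}
    (hz : ∀ A, z A ≠ 0 → L.IsClique (A : Set (Fin n)) ∧ A.card = m)
    (hφ : ∀ A, φ A ≠ 0 → A.card = m) (T : Finset (Fin n)) :
    ∑ U ∈ powersetCard (2 * m) univ, FF L z φ T U = z T * z T * φ T := by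
  classical
  rw [← sum_filter_add_sum_filter_not _ (fun U => T ⊆ sh (al U) ∧ T ⊆ sh (be U))]
  have e1 : ∑ U ∈ (powersetCard (2 * m) univ).filter (fun U => T ⊆ sh (al U) ∧ T ⊆ sh (be U)), FF L z φ T U =
      z T * z T * φ T := by
    by_cases hT : T.card = m
    · rw [sum_eq_single (UT T)]
      · exact FF_UT hz hφ T
      · intro U hU hne
        by_contra hF
        rw [mem_filter] at hU
        exact hne (FF_eq hz hφ T U hF hU.2.1 hU.2.2)
      · intro h
        exfalso
        apply h
        rw [mem_filter, mem_powersetCard, card_UT, hT, sh_al_UT, sh_be_UT]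
        exact ⟨⟨subset_univ _, rfl⟩, subset_rfl, subset_rfl⟩
    · have hzT : z T = 0 := by
        by_contra h
        exact hT (hz T h).2
      rw [hzT]
      simp only [mul_zero, zero_mul]
      refine sum_eq_zero fun U hU => ?_
      by_contra hF
      rw [mem_filter] at hU
      have h1 := FF_eq hz hφ T U hF hU.2.1 hU.2.2
      apply hF
      rw [h1, FF_UT hz hφ T, hzT]
      ring
  have e2 : ∑ U ∈ (powersetCard (2 * m) univ).filter (fun U => ¬ (T ⊆ sh (al U) ∧ T ⊆ sh (be U))), FF L z φ T U =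
      0 := by
    rw [← sum_filter_ne_zero]
    -- the vertex to be flipped
    have hne : ∀ U ∈ ((powersetCard (2 * m) univ).filter
        (fun U => ¬ (T ⊆ sh (al U) ∧ T ⊆ sh (be U)))).filter (fun U => FF L z φ T U ≠ 0),
        (T \ (sh (al U) ∩ sh (be U))).Nonempty := by
      intro U hU
      rw [mem_filter, mem_filter] at hU
      rw [sdiff_nonempty]
      intro h
      exact hU.1.2 ⟨h.trans inter_subset_left, h.trans inter_subset_right⟩
    have hone : ∀ U, FF L z φ T U ≠ 0 → ∀ v ∈ T \ (sh (al U) ∩ sh (be U)),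
        One v U ∧ (en n (v, true) ∈ U ∨ en n (v, false) ∈ U) := by
      intro U hF v hv
      rw [FF] at hF
      split_ifs at hF with h3
      · rw [mem_sdiff, mem_inter, mem_sh, mem_sh] at hv
        have h4 := h3.2.2.2 hv.1
        rw [mem_union, mem_sh, mem_sh] at h4
        rw [One, mem_or, mem_or]
        have h5 := h3.1 v
        have h6 := h3.2.1 v
        tauto
      · exact absurd rfl hF
    refine sum_involution (fun U hU => U.map (flN ((T \ (sh (al U) ∩ sh (be U))).min' (hne U hU))).toEmbedding)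
      ?_ ?_ ?_ ?_
    · intro U hU
      have hF := (mem_filter.mp hU).2
      have hv := min'_mem _ (hne U hU)
      rw [FF_flip z φ T U _ (mem_sdiff.mp hv).1 (hone U hF _ hv).1 hF, CharTwo.add_self_eq_zero]
    · intro U hU _ heq
      have hF := (mem_filter.mp hU).2
      have hv := min'_mem _ (hne U hU)
      obtain ⟨h1, h2⟩ := hone U hF _ hv
      set v := (T \ (sh (al U) ∩ sh (be U))).min' (hne U hU)
      have h3 : ∀ b, en n (v, b) ∈ U → en n (v, !b) ∈ U := by
        intro b hb
        rw [← heq, mem_map]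
        exact ⟨en n (v, b), hb, by rw [Equiv.coe_toEmbedding, flN_en, fl_self]⟩
      rcases h2 with h2 | h2
      · exact h1 ⟨h2, h3 true h2⟩
      · exact h1 ⟨h3 false h2, h2⟩
    · intro U hU
      have hF := (mem_filter.mp hU).2
      have hU2 := mem_filter.mp (mem_filter.mp hU).1
      have hv := min'_mem _ (hne U hU)
      obtain ⟨h1, h2⟩ := hone U hF _ hv
      obtain ⟨h3, h4⟩ := al_fl _ U h1
      rw [mem_filter, mem_filter, h3, h4, sh_fl, sh_fl, mem_powersetCard, card_map,
        FF_flip z φ T U _ (mem_sdiff.mp hv).1 h1 hF]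
      exact ⟨⟨⟨subset_univ _, (mem_powersetCard.mp hU2.1).2⟩, hU2.2⟩, hF⟩
    · intro U hU
      have hF := (mem_filter.mp hU).2
      have hv := min'_mem _ (hne U hU)
      obtain ⟨h1, h2⟩ := hone U hF _ hv
      obtain ⟨h3, h4⟩ := al_fl _ U h1
      simp only [h3, h4, sh_fl]
      rw [map_map]
      ext w
      rw [mem_map]
      constructor
      · rintro ⟨a, ha, rfl⟩
        simpa [flN_flN] using ha
      · intro h
        exact ⟨w, h, by simp [flN_flN]⟩
  rw [e1, e2, add_zero]

/-- the transport of sums -/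
theorem sum_transport (ρ : Finset (Fin (n * 2))) (g : Fin n × Bool → K) :
    ∑ v ∈ ρᶜ, g ((en n).symm v) = ∑ w ∈ (ρ.map (en n).symm.toEmbedding)ᶜ, g w := by
  refine sum_nbij (fun v => (en n).symm v) ?_ ?_ ?_ ?_
  · intro v hv
    rw [mem_compl] at hv ⊢
    intro h
    obtain ⟨w, hw, h2⟩ := mem_map.mp h
    exact hv ((en n).symm.injective h2 ▸ hw)
  · intro a _ b _ h
    exact (en n).symm.injective h
  · intro w hw
    rw [mem_coe, mem_compl] at hw
    refine ⟨en n w, ?_, (en n).symm_apply_apply w⟩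
    rw [mem_coe, mem_compl]
    intro h
    exact hw (mem_map.mpr ⟨en n w, h, (en n).symm_apply_apply w⟩)
  · intro v _
    rfl

/-- **the main identity**: the cycles are orthogonal to the cocycles -/
theorem main_pair {m : ℕ} (hO : Obs (Oct L) (2 * m)) {z φ : Finset (Fin n) → K}
    (hz : ∀ A, z A ≠ 0 → L.IsClique (A : Set (Fin n)) ∧ A.card = m)
    (hcyc : ∀ A : Finset (Fin n), ∑ v ∈ Aᶜ, z (insert v A) = 0)
    (hφ : ∀ A, φ A ≠ 0 → A.card = m)
    (hcoc : ∀ D : Finset (Fin n), L.IsClique (D : Set (Fin n)) → ∑ v ∈ D, φ (D.erase v) = 0) :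
    ∑ T : Finset (Fin n), z T * z T * φ T = 0 := by
  classical
  have hVK := hO (n * 2) (en n)
  have key := hVK K (fun σ τ => ZO L z φ (σ.map (en n).symm.toEmbedding) (τ.map (en n).symm.toEmbedding)) ?_ ?_ ?_
  · have e1 : ∀ U ∈ powersetCard (2 * m) (univ : Finset (Fin (n * 2))),
        ZO L z φ ((evenPart U).map (en n).symm.toEmbedding) ((oddPart U).map (en n).symm.toEmbedding) =
          ∑ T : Finset (Fin n), FF L z φ T U := fun U _ => ZO_eq_FF z φ U
    rw [sum_congr rfl e1, sum_comm, sum_congr rfl fun T _ => eval_sum hz hφ T] at key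
    exact key
  · intro σ τ
    exact ZO_symm (fun A h => (hz A h).1) hcoc _ _
  · intro σ τ h
    have h1 : Disjoint (σ.map (en n).symm.toEmbedding) (τ.map (en n).symm.toEmbedding) ∧
        Sg (σ.map (en n).symm.toEmbedding) ∧ Sg (τ.map (en n).symm.toEmbedding) := by
      by_contra h2
      exact h (by rw [ZO, if_neg h2])
    have h2 : z (sh (σ.map (en n).symm.toEmbedding)) ≠ 0 := by
      intro h3
      exact h (by rw [ZO, if_pos h1, h3]; ring)
    have h3 : z (sh (τ.map (en n).symm.toEmbedding)) ≠ 0 := by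
      intro h3
      exact h (by rw [ZO, if_pos h1, h3]; ring)
    have hcl : ∀ α : Finset (Fin n × Bool), Sg α → L.IsClique (sh α : Set (Fin n)) →
        (Oct L).IsClique (α : Set (Fin n × Bool)) := by
      intro α hα hL x hx y hy hxy
      have hx1 : x.1 ∈ sh α := mem_image_of_mem Prod.fst (mem_coe.mp hx)
      have hy1 : y.1 ∈ sh α := mem_image_of_mem Prod.fst (mem_coe.mp hy)
      refine hL (mem_coe.mpr hx1) (mem_coe.mpr hy1) ?_
      intro h4
      obtain ⟨x1, x2⟩ := x
      obtain ⟨y1, y2⟩ := y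
      simp only at h4
      subst h4
      have h5 := hα x1
      rw [mem_coe] at hx hy
      cases x2 <;> cases y2
      · exact hxy rfl
      · exact h5 ⟨hy, hx⟩
      · exact h5 ⟨hx, hy⟩
      · exact hxy rfl
    rw [mem_clF, mem_clF]
    exact ⟨hcl _ h1.2.1 (hz _ h2).1, hcl _ h1.2.2 (hz _ h3).1⟩
  · intro ρ τ hd _
    have hd2 : Disjoint (ρ.map (en n).symm.toEmbedding) (τ.map (en n).symm.toEmbedding) := by
      rwa [disjoint_map]
    have hmap : ∀ (v : Fin (n * 2)) (σ : Finset (Fin (n * 2))),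
        (insert v σ).map (en n).symm.toEmbedding = insert ((en n).symm v) (σ.map (en n).symm.toEmbedding) := by
      intro v σ
      rw [map_insert]
      rfl
    simp only [hmap]
    rw [sum_add_distrib]
    have k1 := sum_transport (ρ ∪ τ) (fun x => ZO L z φ (insert x (ρ.map (en n).symm.toEmbedding))
      (τ.map (en n).symm.toEmbedding))
    have k2 := sum_transport (ρ ∪ τ) (fun x => ZO L z φ (ρ.map (en n).symm.toEmbedding)
      (insert x (τ.map (en n).symm.toEmbedding)))
    rw [k1, k2, map_union, ZO_cycle (fun A h => (hz A h).1) hcyc hd2]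
    have e2 : ∀ x, ZO L z φ (ρ.map (en n).symm.toEmbedding) (insert x (τ.map (en n).symm.toEmbedding)) =
        ZO L z φ (insert x (τ.map (en n).symm.toEmbedding)) (ρ.map (en n).symm.toEmbedding) := fun x =>
      ZO_symm (fun A h => (hz A h).1) hcoc _ _
    simp only [e2]
    rw [union_comm, ZO_cycle (fun A h => (hz A h).1) hcyc hd2.symm, add_zero]

end

end Pool.Agent.W2helper34.AD
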