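import Pool.Agent.W2helper34.AD.Eval

/-!
# Exactness of the line complex of the octahedralization
-/

set_option autoImplicit false
set_option linter.unusedSectionVars false
set_option linter.unusedVariables false

namespace Pool.Agent.W2helper34.AD

open Finset Pool.Agent.W555.KS Pool.Agent.R782.Bal Pool.Agent.W907.SG Pool.Agent.W907.SM

section dual

variable {n : ℕ} {L : SimpleGraph (Fin n)}

open Classical in
/-- the boundary operator on the chains supported on the cliques of cardinality `m + 1` -/
noncomputable def dd (L : SimpleGraph (Fin n)) (m : ℕ) :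
    (Finset (Fin n) → ZMod 2) →ₗ[ZMod 2] (Finset (Fin n) → ZMod 2) where
  toFun y A := ∑ v ∈ Aᶜ, if L.IsClique ((insert v A : Finset (Fin n)) : Set (Fin n)) ∧ (insert v A).card = m + 1
    then y (insert v A) else 0
  map_add' y y' := by
    funext A
    rw [Pi.add_apply, ← sum_add_distrib]
    refine sum_congr rfl fun v _ => ?_
    split_ifs <;> simp
  map_smul' a y := by
    funext A
    simp only [RingHom.id_apply, Pi.smul_apply, smul_eq_mul, mul_sum]
    refine sum_congr rfl fun v _ => ?_
    split_ifs <;> simp

theorem dual_step {m : ℕ} (hO : Obs (Oct L) (2 * m)) : Acyc (ZMod 2) L m := by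
  classical
  intro z hz hcyc
  by_cases hmem : z ∈ LinearMap.range (dd L m)
  · obtain ⟨y, hy⟩ := hmem
    refine ⟨fun A => if L.IsClique (A : Set (Fin n)) ∧ A.card = m + 1 then y A else 0, ?_, ?_⟩
    · intro A hA
      by_contra h
      exact hA (if_neg h)
    · intro A
      exact congrFun hy A
  · exfalso
    obtain ⟨f, hf1, hf2⟩ := Submodule.exists_dual_map_eq_bot_of_notMem hmem inferInstance
    have hf3 : ∀ y, f (dd L m y) = 0 := by
      intro y
      have h : f (dd L m y) ∈ (LinearMap.range (dd L m)).map f := ⟨_, ⟨y, rfl⟩, rfl⟩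
      rw [hf2] at h
      exact (Submodule.mem_bot _).mp h
    have hf4 : ∀ x : Finset (Fin n) → ZMod 2, f x = ∑ T, x T * f (Pi.single T 1) := by
      intro x
      conv_lhs => rw [← Finset.univ_sum_single x]
      rw [map_sum]
      refine sum_congr rfl fun T _ => ?_
      have : (Pi.single T (x T) : Finset (Fin n) → ZMod 2) = x T • Pi.single T 1 := by
        rw [← Pi.single_smul, smul_eq_mul, mul_one]
      rw [this, map_smul, smul_eq_mul]
    set φ : Finset (Fin n) → ZMod 2 := fun T => if T.card = m then f (Pi.single T 1) else 0 with hφd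
    have h1 := main_pair (K := ZMod 2) hO (z := z) (φ := φ) hz hcyc (fun A hA => by
      by_contra h
      exact hA (if_neg h)) (by
      intro D hD
      by_cases hc : D.card = m + 1
      · have h2 := hf3 (Pi.single D 1)
        rw [hf4] at h2
        rw [← h2]
        have e1 : ∀ T : Finset (Fin n), dd L m (Pi.single D 1) T =
            if T ∈ D.image (fun v => D.erase v) then 1 else 0 := by
          intro T
          have e0 : dd L m (Pi.single D 1) T = ∑ v ∈ Tᶜ,
            if L.IsClique ((insert v T : Finset (Fin n)) : Set (Fin n)) ∧ (insert v T).card = m + 1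
            then (Pi.single D 1 : Finset (Fin n) → ZMod 2) (insert v T) else 0 := rfl
          rw [e0]
          split_ifs with h3
          · obtain ⟨v, hv, rfl⟩ := mem_image.mp h3
            rw [sum_eq_single v]
            · rw [insert_erase hv, if_pos ⟨hD, hc⟩, Pi.single_eq_same]
            · intro w hw hne
              rw [Pi.single_eq_of_ne, ite_self]
              intro h4
              have h5 : v ∈ insert w (D.erase v) := by rw [h4]; exact hv
              rcases mem_insert.mp h5 with h6 | h6
              · exact hne h6.symm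
              · exact absurd h6 (notMem_erase v D)
            · intro h4
              exact absurd (mem_compl.mpr (notMem_erase v D)) h4
          · refine sum_eq_zero fun w hw => ?_
            rw [Pi.single_eq_of_ne, ite_self]
            intro h4
            apply h3
            rw [mem_image]
            refine ⟨w, h4 ▸ mem_insert_self w T, ?_⟩
            rw [← h4, erase_insert (mem_compl.mp hw)]
        have e2 : ∀ T : Finset (Fin n), dd L m (Pi.single D 1) T * f (Pi.single T 1) =
            if T ∈ D.image (fun v => D.erase v) then f (Pi.single T 1) else 0 := by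
          intro T
          rw [e1]
          split_ifs <;> simp
        rw [sum_congr rfl fun T _ => e2 T, Finset.sum_ite_mem, univ_inter, sum_image]
        · refine sum_congr rfl fun v hv => ?_
          simp only [hφd]
          rw [if_pos (by rw [card_erase_of_mem hv, hc]; rfl)]
        · intro a ha b hb hab
          by_contra hne
          have h3 : a ∈ D.erase b := mem_erase.mpr ⟨hne, mem_coe.mp ha⟩
          simp only at hab
          rw [← hab] at h3
          exact notMem_erase a D h3
      · refine sum_eq_zero fun v hv => ?_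
        simp only [hφd]
        rw [if_neg]
        rw [card_erase_of_mem hv]
        have := card_pos.mpr ⟨v, hv⟩
        omega)
    apply hf1
    rw [hf4, ← h1]
    refine sum_congr rfl fun T _ => ?_
    have hsq : ∀ a : ZMod 2, a * a = a := by decide
    rw [hsq]
    by_cases hT : z T = 0
    · rw [hT, zero_mul, zero_mul]
    · simp only [hφd]
      rw [if_pos (hz T hT).2]

/-- base change -/
theorem Acyc.base {m : ℕ} (h : Acyc (ZMod 2) L m) (K : Type) [Field K] [CharP K 2] : Acyc K L m := by
  classical
  intro z hz hcyc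
  letI : Algebra (ZMod 2) K := ZMod.algebra K 2
  let b := Module.Basis.ofVectorSpace (ZMod 2) K
  set S : Finset _ := (univ : Finset (Finset (Fin n))).biUnion (fun T => (b.repr (z T)).support) with hS
  have h1 : ∀ j, ∃ y : Finset (Fin n) → ZMod 2,
      (∀ A, y A ≠ 0 → L.IsClique (A : Set (Fin n)) ∧ A.card = m + 1) ∧
      ∀ A : Finset (Fin n), ∑ v ∈ Aᶜ, y (insert v A) = b.repr (z A) j := by
    intro j
    refine h (fun A => b.repr (z A) j) ?_ ?_
    · intro A hA
      refine hz A fun h0 => hA ?_
      rw [h0]
      simp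
    · intro A
      have h2 := congrArg (fun x => b.repr x j) (hcyc A)
      simp only [map_sum, map_zero, Finsupp.coe_zero, Pi.zero_apply, Finsupp.coe_finsetSum,
        Finset.sum_apply] at h2
      exact h2
  choose y hy1 hy2 using h1
  refine ⟨fun A => ∑ j ∈ S, y j A • b j, ?_, ?_⟩
  · intro A hA
    obtain ⟨j, _, hj⟩ := exists_ne_zero_of_sum_ne_zero hA
    refine hy1 j A fun h0 => hj ?_
    rw [h0, zero_smul]
  · intro A
    rw [sum_comm]
    have e1 : ∀ j ∈ S, ∑ v ∈ Aᶜ, y j (insert v A) • b j = b.repr (z A) j • b j := by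
      intro j _
      rw [← sum_smul, hy2]
    rw [sum_congr rfl e1]
    have e2 : z A = (b.repr (z A)).sum fun j c => c • b j := by
      conv_lhs => rw [← b.linearCombination_repr (z A)]
      rw [Finsupp.linearCombination_apply]
    conv_rhs => rw [e2]
    rw [Finsupp.sum]
    symm
    refine sum_subset ?_ ?_
    · intro j hj
      rw [hS, mem_biUnion]
      exact ⟨A, mem_univ _, hj⟩
    · intro j _ hj
      rw [Finsupp.notMem_support_iff.mp hj, zero_smul]

end dual

section ex

variable {n : ℕ} {L : SimpleGraph (Fin n)} {W K : Type} [Fintype W] [LinearOrder W] [Field K] [CharP K 2]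
  (e : W ≃ Fin n × Bool) (τ : W → K)

/-- the denominator -/
noncomputable def dv (v : Fin n) : K := τ (e.symm (v, true)) + τ (e.symm (v, false))

/-- the coordinates -/
noncomputable def kap (v : Fin n) (b c : Bool) : K := (if c then 1 else τ (e.symm (v, !b))) / dv e τ v

/-- the lines -/
noncomputable def uu (v : Fin n) (b c : Bool) : K := if c then τ (e.symm (v, b)) else 1

theorem kap_uu (hτ : ∀ v, dv e τ v ≠ 0) (v : Fin n) (c c' : Bool) :
    ∑ b : Bool, kap e τ v b c * uu e τ v b c' = if c = c' then 1 else 0 := by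
  have h := hτ v
  have h2 : (2 : K) = 0 := CharTwo.two_eq_zero
  have h3 : τ (e.symm (v, true)) / dv e τ v + τ (e.symm (v, false)) / dv e τ v = 1 := by
    rw [← add_div]
    exact div_self h
  rw [Fintype.sum_bool]
  cases c <;> cases c' <;> simp only [kap, uu, Bool.not_true, Bool.not_false, if_true, if_false,
    Bool.false_eq_true, reduceCtorEq]
  · linear_combination h3
  · linear_combination (τ (e.symm (v, false)) * τ (e.symm (v, true)) / dv e τ v) * h2
  · linear_combination (1 / dv e τ v) * h2
  · linear_combination h3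

/-- the coordinate functional -/
noncomputable def lam (δ : Fin n → Bool) (f : (Fin n → Bool) → K) : K := ∑ ε, f ε * ∏ v, kap e τ v (δ v) (ε v)

/-- the dual vectors -/
noncomputable def uv (δ ε : Fin n → Bool) : K := ∏ v, uu e τ v (δ v) (ε v)

theorem lam_sum {ι : Type} (s : Finset ι) (δ : Fin n → Bool) (f : ι → (Fin n → Bool) → K) :
    lam e τ δ (∑ i ∈ s, f i) = ∑ i ∈ s, lam e τ δ (f i) := by
  simp only [lam, Finset.sum_apply, sum_mul]
  rw [sum_comm]

theorem lam_zero (δ : Fin n → Bool) : lam e τ δ 0 = 0 := by
  simp [lam]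

theorem lam_uv (hτ : ∀ v, dv e τ v ≠ 0) (f : (Fin n → Bool) → K) (ε' : Fin n → Bool) :
    ∑ δ : Fin n → Bool, lam e τ δ f * uv e τ δ ε' = f ε' := by
  have e1 : ∀ δ : Fin n → Bool, lam e τ δ f * uv e τ δ ε' =
      ∑ ε, f ε * ∏ v, kap e τ v (δ v) (ε v) * uu e τ v (δ v) (ε' v) := by
    intro δ
    rw [lam, uv, sum_mul]
    refine sum_congr rfl fun ε _ => ?_
    rw [prod_mul_distrib, mul_assoc]
  rw [sum_congr rfl fun δ _ => e1 δ, sum_comm]
  have e2 : ∀ ε : Fin n → Bool, ∑ δ : Fin n → Bool, f ε * ∏ v, kap e τ v (δ v) (ε v) * uu e τ v (δ v) (ε' v) =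
      if ε = ε' then f ε else 0 := by
    intro ε
    rw [← mul_sum]
    have e3 := Finset.prod_univ_sum (fun _ : Fin n => (univ : Finset Bool))
      (fun v b => kap e τ v b (ε v) * uu e τ v b (ε' v))
    rw [Fintype.piFinset_univ] at e3
    rw [← e3, prod_congr rfl fun v _ => kap_uu e τ hτ v (ε v) (ε' v)]
    by_cases h : ε = ε'
    · rw [if_pos h, h]
      simp
    · rw [if_neg h]
      obtain ⟨v, hv⟩ := Function.ne_iff.mp h
      rw [prod_eq_zero (mem_univ v) (if_neg hv), mul_zero]
  rw [sum_congr rfl fun ε _ => e2 ε, sum_ite_eq' univ ε' f, if_pos (mem_univ _)]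

/-- the coordinates vanish for the wrong signs -/
theorem lam_line (δ : Fin n → Bool) (t : W) (ht : (e t).2 ≠ δ (e t).1) (f : (Fin n → Bool) → K)
    (hf : ∀ ε : Fin n → Bool, f (Function.update ε (e t).1 true) = τ t * f (Function.update ε (e t).1 false)) :
    lam e τ δ f = 0 := by
  classical
  set c := (e t).1 with hc
  have ht2 : e.symm (c, !(δ c)) = t := by
    rw [Equiv.symm_apply_eq]
    have : (!(δ c)) = (e t).2 := by
      cases h1 : δ c <;> cases h2 : (e t).2 <;> simp_all
    rw [this]
  have key : ∀ ε : Fin n → Bool, f (Function.update ε c false) * ∏ v, kap e τ v (δ v) (Function.update ε c false v) +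
      f (Function.update ε c true) * ∏ v, kap e τ v (δ v) (Function.update ε c true v) = 0 := by
    intro ε
    rw [hf, ← mul_prod_erase univ _ (mem_univ c), ← mul_prod_erase univ (fun v => kap e τ v (δ v)
      (Function.update ε c true v)) (mem_univ c), Function.update_self, Function.update_self]
    have e1 : ∏ v ∈ univ.erase c, kap e τ v (δ v) (Function.update ε c true v) =
        ∏ v ∈ univ.erase c, kap e τ v (δ v) (Function.update ε c false v) := by
      refine prod_congr rfl fun v hv => ?_
      rw [Function.update_of_ne (ne_of_mem_erase hv), Function.update_of_ne (ne_of_mem_erase hv)]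
    rw [e1]
    have e2 : kap e τ c (δ c) false = τ t * kap e τ c (δ c) true := by
      simp only [kap, Bool.false_eq_true, if_false, if_true, ht2]
      ring
    rw [e2]
    have h2 : (2 : K) = 0 := CharTwo.two_eq_zero
    linear_combination (f (Function.update ε c false) * (τ t * kap e τ c (δ c) true *
      ∏ v ∈ univ.erase c, kap e τ v (δ v) (Function.update ε c false v))) * h2
  rw [lam]
  refine sum_involution (fun ε _ => Function.update ε c (!(ε c))) ?_ ?_ ?_ ?_
  · intro ε _
    have h1 := key ε
    cases h2 : ε c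
    · have h3 : Function.update ε c false = ε := by rw [← h2, Function.update_eq_self]
      rw [h3] at h1
      simpa [h2] using h1
    · have h3 : Function.update ε c true = ε := by rw [← h2, Function.update_eq_self]
      rw [h3, add_comm] at h1
      simpa [h2] using h1
  · intro ε _ _ h
    have h1 := congrFun h c
    rw [Function.update_self] at h1
    cases h2 : ε c <;> simp [h2] at h1
  · intro ε _
    exact mem_univ _
  · intro ε _
    simp

/-- the lift of a set -/
def lf (δ : Fin n → Bool) (A : Finset (Fin n)) : Finset W := A.image (fun v => e.symm (v, δ v))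

/-- the colours of a set -/
def cl (T : Finset W) : Finset (Fin n) := T.image (fun t => (e t).1)

variable {e}

theorem mem_lf {δ : Fin n → Bool} {A : Finset (Fin n)} {x : W} : x ∈ lf e δ A ↔ (e x).1 ∈ A ∧ (e x).2 = δ (e x).1 := by
  rw [lf, mem_image]
  constructor
  · rintro ⟨v, hv, rfl⟩
    rw [Equiv.apply_symm_apply]
    exact ⟨hv, rfl⟩
  · rintro ⟨h1, h2⟩
    refine ⟨(e x).1, h1, ?_⟩
    rw [← h2, Equiv.symm_apply_eq]

theorem lf_cl {δ : Fin n → Bool} {T : Finset W} (hT : ∀ t ∈ T, (e t).2 = δ (e t).1) : lf e δ (cl e T) = T := by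
  ext x
  rw [mem_lf, cl, mem_image]
  constructor
  · rintro ⟨⟨t, ht, h1⟩, h2⟩
    have h3 := hT t ht
    have h4 : e t = e x := Prod.ext h1 (by rw [h3, h2, h1])
    exact e.injective h4 ▸ ht
  · intro h
    exact ⟨⟨x, h, rfl⟩, hT x h⟩

theorem lf_insert (δ : Fin n → Bool) (v : Fin n) (A : Finset (Fin n)) :
    lf e δ (insert v A) = insert (e.symm (v, δ v)) (lf e δ A) := by
  rw [lf, image_insert]
  rfl

theorem cl_insert (x : W) (T : Finset W) : cl e (insert x T) = insert (e x).1 (cl e T) := by
  rw [cl, image_insert]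
  rfl

theorem card_lf (δ : Fin n → Bool) (A : Finset (Fin n)) : (lf e δ A).card = A.card := by
  rw [lf, card_image_of_injective]
  intro a b hab
  have h := e.symm.injective hab
  exact (Prod.ext_iff.mp h).1

/-- sums over the complement of a lift -/
theorem sum_lf {M : Type} [AddCommMonoid M] (δ : Fin n → Bool) (A : Finset (Fin n)) (g : W → M)
    (hg : ∀ x, x ∉ lf e δ A → (e x).2 ≠ δ (e x).1 → g x = 0) :
    ∑ x ∈ (lf e δ A)ᶜ, g x = ∑ v ∈ Aᶜ, g (e.symm (v, δ v)) := by
  classical
  symm
  rw [← sum_subset (s₁ := Aᶜ.image (fun v => e.symm (v, δ v)))]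
  · rw [sum_image]
    intro a _ b _ hab
    have h := e.symm.injective hab
    exact (Prod.ext_iff.mp h).1
  · intro x hx
    obtain ⟨v, hv, rfl⟩ := mem_image.mp hx
    rw [mem_compl, mem_lf, Equiv.apply_symm_apply]
    exact fun h => (mem_compl.mp hv) h.1
  · intro x hx hx2
    rw [mem_compl] at hx
    refine hg x hx fun h => hx2 ?_
    rw [mem_image]
    refine ⟨(e x).1, ?_, ?_⟩
    · rw [mem_compl]
      exact fun h3 => hx (mem_lf.mpr ⟨h3, h⟩)
    · rw [← h, Equiv.symm_apply_eq]

/-- **exactness** -/
theorem ex_oct {m : ℕ} {G : SimpleGraph W} (hG : ∀ x y, G.Adj x y ↔ L.Adj (e x).1 (e y).1) (hτ : ∀ v, dv e τ v ≠ 0)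
    (hL : Acyc K L m) : EX G (fun w => (e w).1) Set.univ τ Set.univ m := by
  classical
  intro z hz hb
  have hbd : ∀ T : Finset W, ∑ x ∈ Tᶜ, z (insert x T) = 0 := by
    intro T
    have h1 := congrFun hb T
    rw [bdd] at h1
    simp only [sg_smul (K := K)] at h1
    exact h1
  have hclq : ∀ (δ : Fin n → Bool) (A : Finset (Fin n)), G.IsClique (lf e δ A : Set W) → L.IsClique (A : Set (Fin n)) := by
    intro δ A h v hv w hw hne
    have h1 := h (x := e.symm (v, δ v)) (mem_coe.mpr (mem_image_of_mem _ (mem_coe.mp hv)))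
      (y := e.symm (w, δ w)) (mem_coe.mpr (mem_image_of_mem _ (mem_coe.mp hw)))
      (fun h2 => hne (Prod.ext_iff.mp (e.symm.injective h2)).1)
    rw [hG, Equiv.apply_symm_apply, Equiv.apply_symm_apply] at h1
    exact h1
  have hclq2 : ∀ (δ : Fin n → Bool) (A : Finset (Fin n)), L.IsClique (A : Set (Fin n)) → G.IsClique (lf e δ A : Set W) := by
    intro δ A h x hx y hy hne
    rw [mem_coe, mem_lf] at hx hy
    rw [hG]
    refine h (mem_coe.mpr hx.1) (mem_coe.mpr hy.1) fun h2 => hne ?_
    exact e.injective (Prod.ext h2 (by rw [hx.2, hy.2, h2]))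
  -- the coordinates
  have hvan : ∀ (δ : Fin n → Bool) (T : Finset W) (t : W), t ∈ T → (e t).2 ≠ δ (e t).1 → lam e τ δ (z T) = 0 := by
    intro δ T t ht htδ
    exact lam_line e τ δ t htδ (z T) (hz.line T t ht (Set.mem_univ _))
  have hz' : ∀ δ : Fin n → Bool, ∃ y : Finset (Fin n) → K,
      (∀ A, y A ≠ 0 → L.IsClique (A : Set (Fin n)) ∧ A.card = m + 1) ∧
      ∀ A : Finset (Fin n), ∑ v ∈ Aᶜ, y (insert v A) = lam e τ δ (z (lf e δ A)) := by
    intro δ
    refine hL (fun A => lam e τ δ (z (lf e δ A))) ?_ ?_
    · intro A hA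
      have h1 : z (lf e δ A) ≠ 0 := by
        intro h
        rw [h, lam_zero] at hA
        exact hA rfl
      have h2 : G.IsClique (lf e δ A : Set W) ∧ (lf e δ A).card = m := by
        by_contra h
        exact h1 (hz.supp _ fun h3 => h ⟨h3.1, h3.2.2⟩)
      rw [card_lf] at h2
      exact ⟨hclq δ A h2.1, h2.2⟩
    · intro A
      have h1 : lam e τ δ (∑ x ∈ (lf e δ A)ᶜ, z (insert x (lf e δ A))) = 0 := by
        rw [hbd, lam_zero]
      rw [lam_sum, sum_lf δ A (fun x => lam e τ δ (z (insert x (lf e δ A))))] at h1
      · rw [← h1]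
        refine sum_congr rfl fun v _ => ?_
        rw [lf_insert]
      · intro x _ hx
        exact hvan δ _ x (mem_insert_self x _) hx
  choose y hy1 hy2 using hz'
  refine ⟨fun T ε => ∑ δ : Fin n → Bool, if (∀ t ∈ T, (e t).2 = δ (e t).1) then y δ (cl e T) * uv e τ δ ε else 0,
    ⟨?_, ?_⟩, ?_⟩
  · intro T hT
    funext ε
    rw [Pi.zero_apply]
    refine sum_eq_zero fun δ _ => ?_
    split_ifs with h
    · have h1 : y δ (cl e T) = 0 := by
        by_contra h2
        obtain ⟨h3, h4⟩ := hy1 δ _ h2
        apply hT
        rw [← lf_cl h, card_lf]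
        exact ⟨hclq2 δ _ h3, Set.subset_univ _, h4⟩
      rw [h1, zero_mul]
    · rfl
  · intro T t ht _ ε
    rw [mul_sum]
    refine sum_congr rfl fun δ _ => ?_
    split_ifs with h
    · have h1 : uv e τ δ (Function.update ε (e t).1 true) = τ t * uv e τ δ (Function.update ε (e t).1 false) := by
        rw [uv, uv, ← mul_prod_erase univ _ (mem_univ (e t).1), ← mul_prod_erase univ (fun v => uu e τ v (δ v)
          (Function.update ε (e t).1 false v)) (mem_univ (e t).1), Function.update_self, Function.update_self]
        have e1 : ∏ v ∈ univ.erase (e t).1, uu e τ v (δ v) (Function.update ε (e t).1 true v) =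
            ∏ v ∈ univ.erase (e t).1, uu e τ v (δ v) (Function.update ε (e t).1 false v) := by
          refine prod_congr rfl fun v hv => ?_
          rw [Function.update_of_ne (ne_of_mem_erase hv), Function.update_of_ne (ne_of_mem_erase hv)]
        have e2 : e.symm ((e t).1, δ (e t).1) = t := by
          rw [Equiv.symm_apply_eq, ← h t ht]
        rw [e1]
        simp only [uu, if_true, Bool.false_eq_true, if_false, e2]
        ring
      rw [h1]
      ring
    · rw [mul_zero]
  · funext T
    rw [bdd]
    simp only [sg_smul (K := K)]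
    funext ε
    rw [Finset.sum_apply]
    rw [sum_comm]
    rw [← lam_uv e τ hτ (z T) ε]
    refine sum_congr rfl fun δ _ => ?_
    by_cases h : ∀ t ∈ T, (e t).2 = δ (e t).1
    · have e1 : ∀ x : W, (if (∀ t ∈ insert x T, (e t).2 = δ (e t).1) then y δ (cl e (insert x T)) * uv e τ δ ε
          else 0) = if (e x).2 = δ (e x).1 then y δ (insert (e x).1 (cl e T)) * uv e τ δ ε else 0 := by
        intro x
        by_cases hx : (e x).2 = δ (e x).1
        · rw [if_pos hx, if_pos, cl_insert]
          intro t ht
          rcases mem_insert.mp ht with rfl | ht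
          · exact hx
          · exact h t ht
        · rw [if_neg hx, if_neg]
          exact fun h2 => hx (h2 x (mem_insert_self x T))
      rw [sum_congr rfl fun x _ => e1 x]
      have e2 : ∑ x ∈ Tᶜ, (if (e x).2 = δ (e x).1 then y δ (insert (e x).1 (cl e T)) * uv e τ δ ε else 0) =
          ∑ v ∈ (cl e T)ᶜ, y δ (insert v (cl e T)) * uv e τ δ ε := by
        have h3 := sum_lf (e := e) δ (cl e T) (fun x => if (e x).2 = δ (e x).1 then
          y δ (insert (e x).1 (cl e T)) * uv e τ δ ε else 0) (fun x _ hx => if_neg hx)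
        rw [lf_cl h] at h3
        rw [h3]
        refine sum_congr rfl fun v _ => ?_
        simp
      rw [e2, ← sum_mul, hy2, lf_cl h]
    · rw [sum_eq_zero]
      · push Not at h
        obtain ⟨t, ht, ht2⟩ := h
        rw [hvan δ T t ht ht2, zero_mul]
      · intro x _
        rw [if_neg]
        exact fun h2 => h fun t ht => h2 t (mem_insert_of_mem ht)

end ex

end Pool.Agent.W2helper34.AD
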