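import Pool.Agent.N504.RS.Unc
import Pool.Agent.TH652.Above

/-!
# The obstruction of joins
-/

set_option autoImplicit false
set_option linter.unusedSectionVars false
set_option linter.unusedVariables false

namespace Pool.Agent.W2helper34.AD

open Finset Pool.Agent.W555.KS Pool.Agent.Y131.KS Pool.Agent.R782.Bal Pool.Agent.N504.RS
open Pool.Agent.TH652.Join (join)

variable {p q : ℕ}

/-- left part -/
def lp (σ : Finset (Fin (p + q))) : Finset (Fin p) := univ.filter (fun i => Fin.castAdd q i ∈ σ)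

/-- right part -/
def rp (σ : Finset (Fin (p + q))) : Finset (Fin q) := univ.filter (fun j => Fin.natAdd p j ∈ σ)

theorem mem_lp {σ : Finset (Fin (p + q))} {i : Fin p} : i ∈ lp σ ↔ Fin.castAdd q i ∈ σ := by simp [lp]

theorem mem_rp {σ : Finset (Fin (p + q))} {j : Fin q} : j ∈ rp σ ↔ Fin.natAdd p j ∈ σ := by simp [rp]

/-- the union -/
def jn (A : Finset (Fin p)) (B : Finset (Fin q)) : Finset (Fin (p + q)) :=
  A.map (Fin.castAddEmb q) ∪ B.map (Fin.natAddEmb p)

theorem castAdd_mem_jn {A : Finset (Fin p)} {B : Finset (Fin q)} {i : Fin p} :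
    Fin.castAdd q i ∈ jn A B ↔ i ∈ A := by
  rw [jn, mem_union, mem_map, mem_map]
  constructor
  · rintro (⟨a, ha, h⟩ | ⟨b, hb, h⟩)
    · have : a = i := Fin.castAdd_injective p q h
      rwa [← this]
    · exfalso
      have h1 := congrArg Fin.val h
      simp at h1
      have := i.2
      omega
  · intro h
    exact Or.inl ⟨i, h, rfl⟩

theorem natAdd_mem_jn {A : Finset (Fin p)} {B : Finset (Fin q)} {j : Fin q} :
    Fin.natAdd p j ∈ jn A B ↔ j ∈ B := by
  rw [jn, mem_union, mem_map, mem_map]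
  constructor
  · rintro (⟨a, ha, h⟩ | ⟨b, hb, h⟩)
    · exfalso
      have h1 := congrArg Fin.val h
      simp at h1
      have := a.2
      omega
    · have h1 := congrArg Fin.val h
      simp at h1
      have : b = j := Fin.ext h1
      rwa [← this]
  · intro h
    exact Or.inr ⟨j, h, rfl⟩

theorem lp_jn (A : Finset (Fin p)) (B : Finset (Fin q)) : lp (jn A B) = A := by
  ext i; rw [mem_lp, castAdd_mem_jn]

theorem rp_jn (A : Finset (Fin p)) (B : Finset (Fin q)) : rp (jn A B) = B := by
  ext j; rw [mem_rp, natAdd_mem_jn]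

theorem jn_lp_rp (σ : Finset (Fin (p + q))) : jn (lp σ) (rp σ) = σ := by
  ext v
  refine Fin.addCases (fun i => ?_) (fun j => ?_) v
  · rw [castAdd_mem_jn, mem_lp]
  · rw [natAdd_mem_jn, mem_rp]

theorem card_jn (A : Finset (Fin p)) (B : Finset (Fin q)) : (jn A B).card = A.card + B.card := by
  rw [jn, card_union_of_disjoint, card_map, card_map]
  rw [disjoint_left]
  intro v h1 h2
  obtain ⟨a, _, rfl⟩ := mem_map.mp h1
  obtain ⟨b, _, h⟩ := mem_map.mp h2
  have h3 := congrArg Fin.val h
  simp at h3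
  have := a.2
  omega

theorem card_lp_rp (σ : Finset (Fin (p + q))) : σ.card = (lp σ).card + (rp σ).card := by
  rw [← card_jn, jn_lp_rp]

theorem lp_insert_cast (i : Fin p) (σ : Finset (Fin (p + q))) :
    lp (insert (Fin.castAdd q i) σ) = insert i (lp σ) := by
  ext a
  rw [mem_lp, mem_insert, mem_insert, mem_lp]
  constructor
  · rintro (h | h)
    · exact Or.inl (Fin.castAdd_injective p q h)
    · exact Or.inr h
  · rintro (h | h)
    · exact Or.inl (by rw [h])
    · exact Or.inr h

theorem rp_insert_cast (i : Fin p) (σ : Finset (Fin (p + q))) :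
    rp (insert (Fin.castAdd q i) σ) = rp σ := by
  ext a
  rw [mem_rp, mem_insert, mem_rp]
  constructor
  · rintro (h | h)
    · exfalso
      have h1 := congrArg Fin.val h
      simp at h1
      have := i.2
      omega
    · exact h
  · exact fun h => Or.inr h

theorem lp_insert_nat (j : Fin q) (σ : Finset (Fin (p + q))) :
    lp (insert (Fin.natAdd p j) σ) = lp σ := by
  ext a
  rw [mem_lp, mem_insert, mem_lp]
  constructor
  · rintro (h | h)
    · exfalso
      have h1 := congrArg Fin.val h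
      simp at h1
      have := a.2
      omega
    · exact h
  · exact fun h => Or.inr h

theorem rp_insert_nat (j : Fin q) (σ : Finset (Fin (p + q))) :
    rp (insert (Fin.natAdd p j) σ) = insert j (rp σ) := by
  ext a
  rw [mem_rp, mem_insert, mem_insert, mem_rp]
  constructor
  · rintro (h | h)
    · left
      have h1 := congrArg Fin.val h
      simp at h1
      exact Fin.ext h1
    · exact Or.inr h
  · rintro (h | h)
    · exact Or.inl (by rw [h])
    · exact Or.inr h

theorem cast_lt {a i : Fin p} : Fin.castAdd q a < Fin.castAdd q i ↔ a < i := Iff.rfl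

theorem nat_lt {b j : Fin q} : Fin.natAdd p b < Fin.natAdd p j ↔ b < j := by
  rw [Fin.lt_def, Fin.lt_def, Fin.val_natAdd, Fin.val_natAdd]
  omega

theorem rank_cast (U : Finset (Fin (p + q))) (i : Fin p) :
    (U.filter (fun w => w < Fin.castAdd q i)).card = ((lp U).filter (fun a => a < i)).card := by
  have e : U.filter (fun w => w < Fin.castAdd q i) = ((lp U).filter (fun a => a < i)).map (Fin.castAddEmb q) := by
    ext v
    rw [mem_filter, mem_map]
    refine Fin.addCases (fun a => ?_) (fun b => ?_) v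
    · constructor
      · rintro ⟨h1, h2⟩
        exact ⟨a, mem_filter.mpr ⟨mem_lp.mpr h1, cast_lt.mp h2⟩, rfl⟩
      · rintro ⟨a', h1, h2⟩
        have h3 : a' = a := Fin.castAdd_injective p q h2
        subst h3
        rw [mem_filter, mem_lp] at h1
        exact ⟨h1.1, cast_lt.mpr h1.2⟩
    · constructor
      · rintro ⟨h1, h2⟩
        exfalso
        rw [Fin.lt_def] at h2
        simp at h2
        have := i.2
        omega
      · rintro ⟨a', h1, h2⟩
        exfalso
        have h3 := congrArg Fin.val h2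
        simp at h3
        have := a'.2
        omega
  rw [e, card_map]

theorem rank_nat (U : Finset (Fin (p + q))) (j : Fin q) :
    (U.filter (fun w => w < Fin.natAdd p j)).card = (lp U).card + ((rp U).filter (fun b => b < j)).card := by
  have e : U.filter (fun w => w < Fin.natAdd p j) = jn (lp U) ((rp U).filter (fun b => b < j)) := by
    ext v
    rw [mem_filter]
    refine Fin.addCases (fun a => ?_) (fun b => ?_) v
    · rw [castAdd_mem_jn, mem_lp]
      constructor
      · exact fun h => h.1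
      · intro h
        refine ⟨h, ?_⟩
        rw [Fin.lt_def]
        simp
        have := a.2
        omega
    · rw [natAdd_mem_jn, mem_filter, mem_rp, nat_lt]
  rw [e, card_jn]

theorem parts_jn (A : Finset (Fin p)) (B : Finset (Fin q)) (hA : Even A.card) :
    evenPart (jn A B) = jn (evenPart A) (evenPart B) ∧ oddPart (jn A B) = jn (oddPart A) (oddPart B) := by
  constructor
  · ext v
    rw [evenPart, mem_filter]
    refine Fin.addCases (fun a => ?_) (fun b => ?_) v
    · rw [castAdd_mem_jn, castAdd_mem_jn, rank_cast, lp_jn, evenPart, mem_filter]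
    · rw [natAdd_mem_jn, natAdd_mem_jn, rank_nat, lp_jn, rp_jn, evenPart, mem_filter, Nat.even_add]
      simp [hA]
  · ext v
    rw [oddPart, mem_filter]
    refine Fin.addCases (fun a => ?_) (fun b => ?_) v
    · rw [castAdd_mem_jn, castAdd_mem_jn, rank_cast, lp_jn, oddPart, mem_filter]
    · rw [natAdd_mem_jn, natAdd_mem_jn, rank_nat, lp_jn, rp_jn, oddPart, mem_filter, Nat.even_add]
      simp [hA]

theorem sum_compl_add {M : Type} [AddCommMonoid M] (S : Finset (Fin (p + q))) (g : Fin (p + q) → M) :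
    ∑ v ∈ Sᶜ, g v = ∑ i ∈ (lp S)ᶜ, g (Fin.castAdd q i) + ∑ j ∈ (rp S)ᶜ, g (Fin.natAdd p j) := by
  have h1 : ∀ {n : ℕ} (T : Finset (Fin n)) (f : Fin n → M), ∑ v ∈ Tᶜ, f v = ∑ v, if v ∈ Tᶜ then f v else 0 := by
    intro n T f
    rw [Finset.sum_ite_mem, univ_inter]
  rw [h1, h1, h1, Fin.sum_univ_add]
  congr 1
  · refine sum_congr rfl fun i _ => ?_
    simp only [mem_compl, mem_lp]
  · refine sum_congr rfl fun j _ => ?_
    simp only [mem_compl, mem_rp]

theorem lp_union (ρ τ : Finset (Fin (p + q))) : lp (ρ ∪ τ) = lp ρ ∪ lp τ := by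
  ext i; rw [mem_lp, mem_union, mem_union, mem_lp, mem_lp]

theorem rp_union (ρ τ : Finset (Fin (p + q))) : rp (ρ ∪ τ) = rp ρ ∪ rp τ := by
  ext i; rw [mem_rp, mem_union, mem_union, mem_rp, mem_rp]

/-- **joins**: if the obstruction of the join vanishes then the obstruction of one of the factors vanishes -/
theorem join_vk2 {a b : ℕ} {L : Finset (Finset (Fin p))} {M : Finset (Finset (Fin q))}
    {N : Finset (Finset (Fin (p + q)))} (hN : ∀ σ ∈ L, ∀ τ ∈ M, jn σ τ ∈ N) (h : VK2 N (2 * a + 2 * b)) :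
    VK2 L (2 * a) ∨ VK2 M (2 * b) := by
  classical
  by_contra hcon
  rw [not_or] at hcon
  obtain ⟨hL, hM⟩ := hcon
  rw [VK2] at hL hM
  push Not at hL hM
  obtain ⟨Z1, s1, p1, c1, e1⟩ := hL
  obtain ⟨Z2, s2, p2, c2, e2⟩ := hM
  obtain ⟨Z, hZ⟩ : ∃ Z : Finset (Fin (p + q)) → Finset (Fin (p + q)) → ZMod 2, ∀ σ τ, Z σ τ =
      if (lp σ).card + (lp τ).card = 2 * a ∧ (rp σ).card + (rp τ).card = 2 * b then
        Z1 (lp σ) (lp τ) * Z2 (rp σ) (rp τ) else 0 := ⟨_, fun _ _ => rfl⟩
  have key := h Z ?_ ?_ ?_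
  · -- evaluation
    have h1 : ∑ U ∈ powersetCard (2 * a + 2 * b) univ, Z (evenPart U) (oddPart U) =
        ∑ x ∈ (powersetCard (2 * a) (univ : Finset (Fin p))) ×ˢ (powersetCard (2 * b) (univ : Finset (Fin q))),
          Z1 (evenPart x.1) (oddPart x.1) * Z2 (evenPart x.2) (oddPart x.2) := by
      have hcard : ∀ {n : ℕ} (U : Finset (Fin n)), (evenPart U).card + (oddPart U).card = U.card := by
        intro n U
        exact card_filter_add_card_filter_not _
      have hlr : ∀ U : Finset (Fin (p + q)), (lp (evenPart U)).card + (lp (oddPart U)).card = (lp U).card ∧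
          (rp (evenPart U)).card + (rp (oddPart U)).card = (rp U).card := by
        intro U
        have hU : evenPart U ∪ oddPart U = U := filter_union_filter_not_eq _ U
        have hD : Disjoint (evenPart U) (oddPart U) := disjoint_filter_filter_not _ _ _
        constructor
        · rw [← card_union_of_disjoint, ← lp_union, hU]
          rw [disjoint_left]
          intro i h1 h2
          exact disjoint_left.mp hD (mem_lp.mp h1) (mem_lp.mp h2)
        · rw [← card_union_of_disjoint, ← rp_union, hU]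
          rw [disjoint_left]
          intro i h1 h2
          exact disjoint_left.mp hD (mem_rp.mp h1) (mem_rp.mp h2)
      symm
      refine sum_bij_ne_zero (fun x _ _ => jn x.1 x.2) ?_ ?_ ?_ ?_
      · rintro ⟨A, B⟩ hx _
        rw [mem_product, mem_powersetCard, mem_powersetCard] at hx
        rw [mem_powersetCard, card_jn, hx.1.2, hx.2.2]
        exact ⟨subset_univ _, rfl⟩
      · rintro ⟨A, B⟩ _ _ ⟨A', B'⟩ _ _ hAB
        have hA := congrArg lp hAB
        have hB := congrArg rp hAB
        simp only at hA hB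
        rw [lp_jn, lp_jn] at hA
        rw [rp_jn, rp_jn] at hB
        rw [hA, hB]
      · intro U hU hne
        rw [hZ] at hne
        split_ifs at hne with hc
        · rw [(hlr U).1, (hlr U).2] at hc
          have hpU := parts_jn (lp U) (rp U) ⟨a, by rw [hc.1]; ring⟩
          rw [jn_lp_rp] at hpU
          refine ⟨(lp U, rp U), ?_, ?_, ?_⟩
          · rw [mem_product, mem_powersetCard, mem_powersetCard]
            exact ⟨⟨subset_univ _, hc.1⟩, ⟨subset_univ _, hc.2⟩⟩
          · rw [hpU.1, hpU.2, lp_jn, lp_jn, rp_jn, rp_jn] at hne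
            exact hne
          · exact jn_lp_rp U
        · exact absurd rfl hne
      · rintro ⟨A, B⟩ hx _
        rw [mem_product, mem_powersetCard, mem_powersetCard] at hx
        have hp := parts_jn A B ⟨a, by rw [hx.1.2]; ring⟩
        simp only
        rw [hZ, hp.1, hp.2, lp_jn, lp_jn, rp_jn, rp_jn, if_pos]
        rw [hcard, hcard]
        exact ⟨hx.1.2, hx.2.2⟩
    rw [h1, sum_product] at key
    simp only [← mul_sum] at key
    rw [← sum_mul] at key
    rcases mul_eq_zero.mp key with h2 | h2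
    · exact e1 h2
    · exact e2 h2
  · intro σ τ
    rw [hZ, hZ, s1, s2, add_comm (lp σ).card, add_comm (rp σ).card]
  · intro σ τ hne
    rw [hZ] at hne
    split_ifs at hne with hc
    · have h1 := p1 _ _ (left_ne_zero_of_mul hne)
      have h2 := p2 _ _ (right_ne_zero_of_mul hne)
      rw [← jn_lp_rp σ, ← jn_lp_rp τ]
      exact ⟨hN _ h1.1 _ h2.1, hN _ h1.2 _ h2.2⟩
    · exact absurd rfl hne
  · intro ρ τ hd hc
    have hdl : Disjoint (lp ρ) (lp τ) := by
      rw [disjoint_left]
      intro i h1 h2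
      exact disjoint_left.mp hd (mem_lp.mp h1) (mem_lp.mp h2)
    have hdr : Disjoint (rp ρ) (rp τ) := by
      rw [disjoint_left]
      intro i h1 h2
      exact disjoint_left.mp hd (mem_rp.mp h1) (mem_rp.mp h2)
    rw [sum_compl_add, lp_union, rp_union]
    have k1 : ∑ i ∈ (lp ρ ∪ lp τ)ᶜ, (Z (insert (Fin.castAdd q i) ρ) τ + Z ρ (insert (Fin.castAdd q i) τ)) = 0 := by
      by_cases hc2 : (lp ρ).card + (lp τ).card + 1 = 2 * a ∧ (rp ρ).card + (rp τ).card = 2 * b
      · have e3 : ∀ i ∈ (lp ρ ∪ lp τ)ᶜ, Z (insert (Fin.castAdd q i) ρ) τ + Z ρ (insert (Fin.castAdd q i) τ) =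
            (Z1 (insert i (lp ρ)) (lp τ) + Z1 (lp ρ) (insert i (lp τ))) * Z2 (rp ρ) (rp τ) := by
          intro i hi
          rw [mem_compl, mem_union, not_or] at hi
          rw [hZ, hZ, lp_insert_cast, lp_insert_cast, rp_insert_cast, rp_insert_cast, if_pos, if_pos, add_mul]
          · rw [card_insert_of_notMem hi.2]
            exact ⟨by omega, hc2.2⟩
          · rw [card_insert_of_notMem hi.1]
            exact ⟨by omega, hc2.2⟩
        rw [sum_congr rfl e3, ← sum_mul, c1 _ _ hdl hc2.1, zero_mul]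
      · refine sum_eq_zero fun i hi => ?_
        rw [mem_compl, mem_union, not_or] at hi
        rw [hZ, hZ, lp_insert_cast, lp_insert_cast, rp_insert_cast, rp_insert_cast, if_neg, if_neg, add_zero]
        · rw [card_insert_of_notMem hi.2]
          exact fun h3 => hc2 ⟨by omega, h3.2⟩
        · rw [card_insert_of_notMem hi.1]
          exact fun h3 => hc2 ⟨by omega, h3.2⟩
    have k2 : ∑ j ∈ (rp ρ ∪ rp τ)ᶜ, (Z (insert (Fin.natAdd p j) ρ) τ + Z ρ (insert (Fin.natAdd p j) τ)) = 0 := by
      by_cases hc2 : (lp ρ).card + (lp τ).card = 2 * a ∧ (rp ρ).card + (rp τ).card + 1 = 2 * b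
      · have e3 : ∀ j ∈ (rp ρ ∪ rp τ)ᶜ, Z (insert (Fin.natAdd p j) ρ) τ + Z ρ (insert (Fin.natAdd p j) τ) =
            Z1 (lp ρ) (lp τ) * (Z2 (insert j (rp ρ)) (rp τ) + Z2 (rp ρ) (insert j (rp τ))) := by
          intro j hj
          rw [mem_compl, mem_union, not_or] at hj
          rw [hZ, hZ, lp_insert_nat, lp_insert_nat, rp_insert_nat, rp_insert_nat, if_pos, if_pos, mul_add]
          · rw [card_insert_of_notMem hj.2]
            exact ⟨hc2.1, by omega⟩
          · rw [card_insert_of_notMem hj.1]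
            exact ⟨hc2.1, by omega⟩
        rw [sum_congr rfl e3, ← mul_sum, c2 _ _ hdr hc2.2, mul_zero]
      · refine sum_eq_zero fun j hj => ?_
        rw [mem_compl, mem_union, not_or] at hj
        rw [hZ, hZ, lp_insert_nat, lp_insert_nat, rp_insert_nat, rp_insert_nat, if_neg, if_neg, add_zero]
        · rw [card_insert_of_notMem hj.2]
          exact fun h3 => hc2 ⟨h3.1, by omega⟩
        · rw [card_insert_of_notMem hj.1]
          exact fun h3 => hc2 ⟨h3.1, by omega⟩
    rw [k1, k2, add_zero]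

/-- the version for graphs -/
theorem obs_join {U W V : Type} [Finite V] {a b : ℕ} {G : SimpleGraph V} {H : SimpleGraph U} {J : SimpleGraph W}
    (f : U ⊕ W ↪ V) (h : Obs G (2 * a + 2 * b)) (h1 : ∀ x y, H.Adj x y → G.Adj (f (Sum.inl x)) (f (Sum.inl y)))
    (h2 : ∀ x y, J.Adj x y → G.Adj (f (Sum.inr x)) (f (Sum.inr y)))
    (h3 : ∀ x y, G.Adj (f (Sum.inl x)) (f (Sum.inr y))) : Obs H (2 * a) ∨ Obs J (2 * b) := by
  classical
  by_contra hcon
  rw [not_or] at hcon
  obtain ⟨hH, hJ⟩ := hcon
  rw [Obs] at hH hJ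
  push Not at hH hJ
  obtain ⟨p, e1, hV1⟩ := hH
  obtain ⟨q, e2, hV2⟩ := hJ
  set f' : Fin (p + q) ↪ V := (finSumFinEquiv.symm.trans (Equiv.sumCongr e1.symm e2.symm)).toEmbedding.trans f
    with hf'
  have hl : ∀ i : Fin p, f' (Fin.castAdd q i) = f (Sum.inl (e1.symm i)) := by
    intro i
    simp [hf']
  have hr : ∀ j : Fin q, f' (Fin.natAdd p j) = f (Sum.inr (e2.symm j)) := by
    intro j
    simp [hf']
  obtain ⟨n, e', g, hg, hge⟩ := ext_equiv f'
  have hN : VK2 (univ.filter (fun σ : Finset (Fin (p + q)) => σ.map g ∈ clF G e')) (2 * a + 2 * b) := by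
    refine vk2_mono (f := g) hg ?_ (h n e' (ZMod 2))
    intro σ hσ
    exact (mem_filter.mp hσ).2
  have hN2 : ∀ σ ∈ clF H e1, ∀ τ ∈ clF J e2,
      jn σ τ ∈ univ.filter (fun σ : Finset (Fin (p + q)) => σ.map g ∈ clF G e') := by
    intro σ hσ τ hτ
    rw [mem_filter]
    refine ⟨mem_univ _, ?_⟩
    rw [mem_clF] at hσ hτ ⊢
    have e3 : ∀ i, e'.symm.toEmbedding (g i) = f' i := by
      intro i
      show e'.symm (g i) = _
      rw [← hge, Equiv.symm_apply_apply]
    intro x hx y hy hxy
    rw [mem_coe, mem_map] at hx hy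
    obtain ⟨x1, hx1, rfl⟩ := hx
    obtain ⟨y1, hy1, rfl⟩ := hy
    rw [mem_map] at hx1 hy1
    obtain ⟨x2, hx2, rfl⟩ := hx1
    obtain ⟨y2, hy2, rfl⟩ := hy1
    rw [e3, e3] at hxy ⊢
    have hm1 : ∀ i ∈ σ, e1.symm i ∈ (σ.map e1.symm.toEmbedding : Finset U) := fun i hi =>
      mem_map.mpr ⟨i, hi, rfl⟩
    have hm2 : ∀ i ∈ τ, e2.symm i ∈ (τ.map e2.symm.toEmbedding : Finset W) := fun i hi =>
      mem_map.mpr ⟨i, hi, rfl⟩
    revert hx2 hy2 hxy
    refine Fin.addCases (fun i => ?_) (fun j => ?_) x2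
    · refine Fin.addCases (fun i' => ?_) (fun j' => ?_) y2
      · intro hi hi' hne
        rw [castAdd_mem_jn] at hi hi'
        rw [hl, hl] at hne ⊢
        exact h1 _ _ (hσ (hm1 i hi) (hm1 i' hi') fun h5 => hne (by rw [h5]))
      · intro _ _ _
        rw [hl, hr]
        exact h3 _ _
    · refine Fin.addCases (fun i' => ?_) (fun j' => ?_) y2
      · intro _ _ _
        rw [hl, hr]
        exact (h3 _ _).symm
      · intro hj hj' hne
        rw [natAdd_mem_jn] at hj hj'
        rw [hr, hr] at hne ⊢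
        exact h2 _ _ (hτ (hm2 j hj) (hm2 j' hj') fun h5 => hne (by rw [h5]))
  rcases join_vk2 hN2 hN with h4 | h4
  · exact hV1 (vk_of_vk2 h4)
  · exact hV2 (vk_of_vk2 h4)

/-- three points are not embedded in the two points -/
theorem obs_three {U : Type} {G : SimpleGraph U} (e : U ≃ Fin 3) : ¬ Obs G 2 := by
  classical
  intro h
  have h1 := h 3 e (ZMod 2) (fun σ τ => if σ.card = 1 ∧ τ.card = 1 ∧ σ ≠ τ then 1 else 0) ?_ ?_ ?_
  · revert h1
    decide
  · intro σ τ
    by_cases hc : σ.card = 1 ∧ τ.card = 1 ∧ σ ≠ τ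
    · rw [if_pos hc, if_pos ⟨hc.2.1, hc.1, hc.2.2.symm⟩]
    · rw [if_neg hc, if_neg fun h2 => hc ⟨h2.2.1, h2.1, h2.2.2.symm⟩]
  · intro σ τ hne
    have hs : ∀ σ : Finset (Fin 3), σ.card = 1 → σ ∈ clF G e := by
      intro σ hσ
      obtain ⟨x, rfl⟩ := card_eq_one.mp hσ
      rw [mem_clF, map_singleton, coe_singleton]
      exact Set.pairwise_singleton _ _
    split_ifs at hne with hc
    · exact ⟨hs _ hc.1, hs _ hc.2.1⟩
    · exact absurd rfl hne
  · decide

end Pool.Agent.W2helper34.AD
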