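import Pool.Agent.W2helper34.AD.Ex
import Pool.Agent.W2helper34.AD.Join
import Pool.Agent.W2helper34.AD.Defs
import Pool.Agent.R782.Bal.Class
import Pool.Agent.R781.VS.Growth

/-!
# `ℓ²`-vanishing above the middle dimension for graphs with twins
-/

set_option autoImplicit false
set_option linter.unusedSectionVars false
set_option linter.unusedVariables false

namespace Pool.Agent.W2helper34.AD

open Finset Pool.Agent.W555.KS Pool.Agent.Y131.KS Pool.Agent.R782.Bal Pool.Agent.N504.RS Pool.Agent.W907.SG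
  Pool.Agent.W907.SM
open Pool.Agent.TH652.Join (join ljoin)
open Pool.Agent.TH652.Glue (lglue)

/-- raising the degree of the obstruction -/
theorem obs_le {V : Type} {G : SimpleGraph V} {D D' : ℕ} (h : Obs G D) (hD : D ≤ D') : Obs G D' := by
  intro n e
  exact vk_of_vk2 (vk2_le (clF_cx G e) hD (h n e (ZMod 2)))

/-- the vertices `v`, `w` have the same neighbours -/
def tw {V : Type} (G : SimpleGraph V) (v w : V) : Prop := ∀ u, G.Adj v u ↔ G.Adj w u

/-- the case of classes of two elements -/
theorem P_two {V : Type} [Finite V] (G : SimpleGraph V) (h1 : ∀ v, ∃ w, w ≠ v ∧ tw G v w)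
    (h2 : ∀ v w w', w ≠ v → w' ≠ v → tw G v w → tw G v w' → w = w') (k : ℕ) (hO : Obs G (2 * k)) (i : ℕ)
    (hi : k ≤ i) : LV G i := by
  classical
  intro _ _
  let s : Setoid V := ⟨tw G, ⟨fun v u => Iff.rfl, fun h u => (h u).symm, fun h h' u => (h u).trans (h' u)⟩⟩
  obtain ⟨n, ⟨eQ⟩⟩ := Finite.exists_equiv_fin (Quotient s)
  choose p hp1 hp2 using h1
  have hout : ∀ q : Quotient s, (⟦q.out⟧ : Quotient s) = q := fun q => Quotient.out_eq q
  set f : Fin n × Bool → V := fun c => if c.2 then p (eQ.symm c.1).out else (eQ.symm c.1).out with hf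
  have hft : ∀ a, f (a, true) = p (eQ.symm a).out := fun a => rfl
  have hff : ∀ a, f (a, false) = (eQ.symm a).out := fun a => rfl
  have hfc : ∀ c : Fin n × Bool, tw G (f c) (f (c.1, false)) := by
    rintro ⟨a, b⟩
    cases b
    · exact fun u => Iff.rfl
    · rw [hft, hff]
      exact fun u => (hp2 _ u).symm
  have hcls : ∀ c : Fin n × Bool, (⟦f c⟧ : Quotient s) = eQ.symm c.1 := by
    intro c
    rw [← hout (eQ.symm c.1), ← hff]
    exact Quotient.sound (hfc c)
  have hbij : Function.Bijective f := by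
    constructor
    · intro c c' hcc
      have h3 : c.1 = c'.1 := by
        have h4 := hcls c
        rw [hcc, hcls c'] at h4
        exact (eQ.symm.injective h4).symm
      obtain ⟨a, b⟩ := c
      obtain ⟨a', b'⟩ := c'
      simp only at h3
      subst h3
      cases b <;> cases b'
      · rfl
      · rw [hff, hft] at hcc
        exact absurd hcc.symm (hp1 _)
      · rw [hff, hft] at hcc
        exact absurd hcc (hp1 _)
      · rfl
    · intro v
      have hr : tw G ((eQ.symm (eQ ⟦v⟧)).out) v := by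
        rw [Equiv.symm_apply_apply]
        exact Quotient.exact (hout ⟦v⟧)
      by_cases hv : v = (eQ.symm (eQ ⟦v⟧)).out
      · exact ⟨(eQ ⟦v⟧, false), hv.symm⟩
      · refine ⟨(eQ ⟦v⟧, true), ?_⟩
        rw [hft]
        exact h2 _ _ _ (hp1 _) hv (hp2 _) hr
  set e : V ≃ Fin n × Bool := (Equiv.ofBijective f hbij).symm with he
  have hfe : ∀ x, f (e x) = x := fun x => (Equiv.ofBijective f hbij).apply_symm_apply x
  set L : SimpleGraph (Fin n) := ⟨fun a b => G.Adj (f (a, false)) (f (b, false)), ⟨fun _ _ h => h.symm⟩,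
    ⟨fun _ h => h.ne rfl⟩⟩ with hL
  have hG : ∀ x y, G.Adj x y ↔ L.Adj (e x).1 (e y).1 := by
    intro x y
    have h3 := hfc (e x)
    have h4 := hfc (e y)
    rw [hfe] at h3 h4
    show G.Adj x y ↔ G.Adj (f ((e x).1, false)) (f ((e y).1, false))
    rw [h3 y, G.adj_comm, h4, G.adj_comm]
  have hOi : Obs (Oct L) (2 * i) := by
    refine obs_mono (obs_le hO (by omega)) e.symm.toEmbedding fun a b hab => ?_
    rw [Equiv.coe_toEmbedding, hG, Equiv.apply_symm_apply, Equiv.apply_symm_apply]
    exact hab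
  have : CharP (MvPolynomial V (ZMod 2)) 2 := inferInstance
  have : CharP (FractionRing (MvPolynomial V (ZMod 2))) 2 := inferInstance
  have hA := (dual_step hOi).base (FractionRing (MvPolynomial V (ZMod 2)))
  have hcol : ∀ u w, G.Adj u w → (e u).1 ≠ (e w).1 := by
    intro u w huw h3
    rw [hG, h3] at huw
    exact huw.ne rfl
  refine l2_of_ex t1 t2 t3 t4 t6 V (Fin n) G (fun w => (e w).1) i hcol ?_
  refine ex_oct (L := L) _ hG (fun v => ?_) hA
  rw [dv, ← map_add, Ne, map_eq_zero_iff _ (IsFractionRing.injective (MvPolynomial V (ZMod 2)) _)]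
  intro h3
  have h4 : (MvPolynomial.X (e.symm (v, true)) : MvPolynomial V (ZMod 2)) = MvPolynomial.X (e.symm (v, false)) :=
    CharTwo.add_eq_zero.mp h3
  have h5 := e.symm.injective (MvPolynomial.X_injective h4)
  simp at h5

/-- the property of the class -/
def PP {V : Type} (G : SimpleGraph V) : Prop := Finite V ∧ ∀ k, Obs G (2 * k) → ∀ i, k ≤ i → LV G i

/-- three points adjacent to everything -/
theorem obs_drop {V : Type} [Finite V] (G : SimpleGraph V) (A : Set V) (x : Fin 3 ↪ V)
    (hx : ∀ j, ∀ u ∈ A, G.Adj (x j) u) (k : ℕ) (hO : Obs G (2 * k)) : 1 ≤ k ∧ Obs (G.induce A) (2 * (k - 1)) := by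
  classical
  have hk : k ≠ 0 := by
    rintro rfl
    exact obs_pos hO rfl
  refine ⟨by omega, ?_⟩
  have h1 : Obs G (2 * 1 + 2 * (k - 1)) := by
    have : 2 * 1 + 2 * (k - 1) = 2 * k := by omega
    rw [this]; exact hO
  have hinj : Function.Injective (Sum.elim x (Subtype.val : ↥A → V)) := by
    intro a b hab
    rcases a with a | a <;> rcases b with b | b
    · exact congrArg Sum.inl (x.injective hab)
    · exact absurd hab (hx a b.1 b.2).ne
    · exact absurd hab.symm (hx b a.1 a.2).ne
    · exact congrArg Sum.inr (Subtype.ext hab)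
  rcases obs_join (H := (⊥ : SimpleGraph (Fin 3))) (J := G.induce A) ⟨_, hinj⟩ h1 (fun x y h => absurd h (by simp))
    (fun a b h => h) (fun a b => hx a b.1 b.2) with h2 | h2
  · exact absurd h2 (obs_three (Equiv.refl _))
  · exact h2

theorem PP_vert {V : Type} [Finite V] (G : SimpleGraph V) (v a b : V) (hav : a ≠ v) (hbv : b ≠ v) (hab : a ≠ b)
    (hna : ¬ G.Adj v a) (hnb : ¬ G.Adj v b) (hN : ∀ u, G.Adj v u → G.Adj a u ∧ G.Adj b u)
    (h1 : PP (G.induce {v}ᶜ)) (h2 : PP (G.induce (G.neighborSet v))) : PP G := by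
  classical
  refine ⟨inferInstance, fun k hO i hi => ?_⟩
  have hx : ∃ x : Fin 3 ↪ V, ∀ j, ∀ u ∈ G.neighborSet v, G.Adj (x j) u := by
    refine ⟨⟨![v, a, b], ?_⟩, ?_⟩
    · intro j j' h
      fin_cases j <;> fin_cases j' <;> simp_all
    · intro j u hu
      have h3 := hN u hu
      fin_cases j
      · exact hu
      · exact h3.1
      · exact h3.2
  obtain ⟨x, hx⟩ := hx
  obtain ⟨hk, h3⟩ := obs_drop G _ x hx k hO
  refine lstep1 V G v i ?_ fun j hj => h2.2 _ h3 j (by omega)
  exact h1.2 k (obs_mono hO (Function.Embedding.subtype _) fun a b h => h) i hi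

theorem PP_glue {V : Type} [Finite V] (G : SimpleGraph V) (A B : Set V) (x : Fin 3 ↪ V) (hAB : A ∪ B = Set.univ)
    (hno : ∀ a ∈ A, a ∉ B → ∀ b ∈ B, b ∉ A → ¬ G.Adj a b) (hx : ∀ j, ∀ u ∈ A ∩ B, G.Adj (x j) u)
    (h1 : PP (G.induce A)) (h2 : PP (G.induce B)) (h3 : PP (G.induce (A ∩ B))) : PP G := by
  refine ⟨inferInstance, fun k hO i hi => ?_⟩
  obtain ⟨hk, h4⟩ := obs_drop G _ x hx k hO
  refine lglue G A B hAB hno i ?_ ?_ fun j hj => h3.2 _ h4 j (by omega)
  · exact h1.2 k (obs_mono hO (Function.Embedding.subtype _) fun a b h => h) i hi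
  · exact h2.2 k (obs_mono hO (Function.Embedding.subtype _) fun a b h => h) i hi

theorem PP_join {V U : Type} (G : SimpleGraph V) (H : SimpleGraph U) (h1 : PP G) (h2 : PP H) : PP (join G H) := by
  classical
  have := h1.1
  have := h2.1
  refine ⟨inferInstance, fun k hO i hi => ljoin G H i fun p q hpq => ?_⟩
  have h3 : Obs (join G H) (2 * p + 2 * q) := obs_le hO (by omega)
  rcases obs_join (H := G) (J := H) (Function.Embedding.refl _) h3 (fun x y h => h) (fun x y h => h)
    (fun x y => trivial) with h4 | h4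
  · exact Or.inl (h1.2 p h4 p le_rfl)
  · exact Or.inr (h2.2 q h4 q le_rfl)

theorem PP_twin (N : ℕ) : ∀ {V : Type} [Finite V] (G : SimpleGraph V), Nat.card V = N →
    (∀ v, ∃ w, w ≠ v ∧ tw G v w) → PP G := by
  classical
  induction N using Nat.strong_induction_on with
  | _ N ih =>
    intro V _ G hN h1
    by_cases h2 : ∀ v w w', w ≠ v → w' ≠ v → tw G v w → tw G v w' → w = w'
    · exact ⟨inferInstance, fun k hO i hi => P_two G h1 h2 k hO i hi⟩
    push Not at h2
    obtain ⟨v, a, b, hav, hbv, ha, hb, hab⟩ := h2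
    have hnt : ∀ w, tw G v w → ¬ G.Adj v w := fun w hw h => (hw w |>.mp h).ne rfl
    have hlt : ∀ A : Set V, v ∉ A → Nat.card ↥A < N := by
      intro A hA
      rw [← hN]
      have : Fintype V := Fintype.ofFinite V
      rw [Nat.card_eq_fintype_card, Nat.card_eq_fintype_card]
      exact Fintype.card_subtype_lt hA
    refine PP_vert G v a b hav hbv hab (hnt a ha) (hnt b hb) (fun u hu => ⟨(ha u).mp hu, (hb u).mp hu⟩) ?_ ?_
    · refine ih _ (hlt _ (by simp)) (G.induce {v}ᶜ) rfl ?_
      rintro ⟨w, hw⟩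
      obtain ⟨w', hw', htw⟩ := h1 w
      by_cases h3 : w' = v
      · -- replace `v` by another twin
        have hwa : ∀ c, tw G v c → c ≠ v → c ≠ w → ∃ z : ↥({v}ᶜ : Set V), z ≠ ⟨w, hw⟩ ∧
            tw (G.induce {v}ᶜ) ⟨w, hw⟩ z := by
          intro c hc hcv hcw
          refine ⟨⟨c, hcv⟩, fun h => hcw (congrArg Subtype.val h), fun u => ?_⟩
          have h4 := htw u.1
          rw [h3] at h4
          exact h4.trans (hc u.1)
        by_cases h4 : a = w
        · exact hwa b hb hbv (fun h => hab (h4.trans h.symm))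
        · exact hwa a ha hav h4
      · exact ⟨⟨w', h3⟩, fun h => hw' (congrArg Subtype.val h), fun u => htw u.1⟩
    · refine ih _ (hlt _ (by simp)) (G.induce (G.neighborSet v)) rfl ?_
      rintro ⟨w, hw⟩
      obtain ⟨w', hw', htw⟩ := h1 w
      have h3 : G.Adj v w' := ((htw v).mp (G.adj_comm v w |>.mp hw)).symm
      exact ⟨⟨w', h3⟩, fun h => hw' (congrArg Subtype.val h), fun u => htw u.1⟩

theorem PP_bip {V : Type} [Finite V] (G : SimpleGraph V) (col : V → Fin 2)
    (hc : ∀ u v, G.Adj u v → col u ≠ col v) : PP G := by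
  classical
  refine ⟨inferInstance, fun k hO i hi => ?_⟩
  intro _ _
  have hk : k ≠ 0 := by
    rintro rfl
    exact obs_pos hO rfl
  rcases Nat.lt_or_ge k 2 with h | h
  · have hk1 : k = 1 := by omega
    subst hk1
    refine l2_top (m := 1) (col := fun _ => 0) ?_ hO i hi
    intro u w huw
    exfalso
    have h3 := obs_clique hO {u, w} (by
      rw [coe_insert, coe_singleton]
      exact SimpleGraph.isClique_pair.mpr fun _ => huw)
    rw [card_pair huw.ne] at h3
    omega
  · refine l2_top (m := k) (col := fun v => Fin.castLE h (col v)) ?_ hO i hi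
    intro u w huw h3
    exact hc u w huw (Fin.castLE_injective h h3)

theorem PP_of_Od {V : Type} {G : SimpleGraph V} (h : Od G) : PP G := by
  induction h with
  | twin G h => exact PP_twin _ G rfl h
  | bip G col hc => exact PP_bip G col hc
  | susp G => exact ⟨inferInstance, fun k _ i _ => lv_susp G i⟩
  | join G H _ _ ih1 ih2 => exact PP_join G H ih1 ih2
  | vert G v a b h1 h2 h3 h4 h5 h6 _ _ ih1 ih2 => exact PP_vert G v a b h1 h2 h3 h4 h5 h6 ih1 ih2
  | glue G A B x hAB hno hx _ _ _ ih1 ih2 ih3 => exact PP_glue G A B x hAB hno hx ih1 ih2 ih3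
  | @iso V U G H e _ ih =>
    have hV : Finite V := ih.1
    have hU : Finite U := Finite.of_equiv V e.some.toEquiv
    refine ⟨hU, fun k hO i hi => liso _ _ _ _ i e (ih.2 k ?_ i hi)⟩
    exact obs_mono hO e.some.toEquiv.toEmbedding fun a b h => e.some.map_rel_iff.mpr h

/-- the property of the class `Ev` -/
def QQ {V : Type} (G : SimpleGraph V) : Prop := Finite V ∧ ∀ d, Obs G (2 * d + 1) → ∀ i, d < i → LV G i

theorem QQ_of_Ev {V : Type} {G : SimpleGraph V} (h : Ev G) : QQ G := by
  induction h with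
  | odd G h =>
    have h1 := PP_of_Od h
    exact ⟨h1.1, fun d hO i hi => h1.2 (d + 1) (obs_le hO (by omega)) i hi⟩
  | vert G v _ h2 ih1 =>
    have h3 := PP_of_Od h2
    refine ⟨inferInstance, fun d hO i hi => lstep1 _ G v i ?_ fun j hj => h3.2 d ?_ j (by omega)⟩
    · exact ih1.2 d (obs_mono hO (Function.Embedding.subtype _) fun a b h => h) i hi
    · exact obs_link hO (Function.Embedding.subtype _) v (fun a b h => h) fun a => a.2
  | glue G A B x hAB hno hx _ _ h3 ih1 ih2 =>
    have h4 := PP_of_Od h3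
    refine ⟨inferInstance, fun d hO i hi => lglue G A B hAB hno i ?_ ?_ fun j hj => h4.2 d ?_ j (by omega)⟩
    · exact ih1.2 d (obs_mono hO (Function.Embedding.subtype _) fun a b h => h) i hi
    · exact ih2.2 d (obs_mono hO (Function.Embedding.subtype _) fun a b h => h) i hi
    · exact obs_link hO (Function.Embedding.subtype _) x (fun a b h => h) fun a => hx a.1 a.2
  | @iso V U G H e _ ih =>
    have hV : Finite V := ih.1
    have hU : Finite U := Finite.of_equiv V e.some.toEquiv
    refine ⟨hU, fun d hO i hi => liso _ _ _ _ i e (ih.2 d ?_ i hi)⟩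
    exact obs_mono hO e.some.toEquiv.toEmbedding fun a b h => e.some.map_rel_iff.mpr h

/-- vanishing of the obstruction -/
theorem EmbS.obs {n : ℕ} {V : Type} {G : SimpleGraph V} (h : EmbS n G) : Obs G (n + 1) := by
  classical
  intro n1 e
  refine vk_of_vk2 ?_
  cases h with
  | @sphere N m K f hn hK hf =>
    refine vk2_le (clF_cx G e) (D := m + 1) (by omega) ?_
    refine vk2_of_sphere hK (e.symm.toEmbedding.trans f) fun σ hσ => ?_
    rw [← map_map]
    exact hf _ (mem_clF.mp hσ)
  | unit F hfin hF hn hinj =>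
    have hmem : ∀ x ∈ Pool.Agent.W289.KS.rea (clF G e), (fun v => x (e v)) ∈ Rea G := by
      rintro x ⟨h1, h2, σ, hσ, h3⟩
      refine ⟨fun v => h1 _, ?_, ?_⟩
      · have : Fintype V := Fintype.ofFinite V
        rw [finsum_eq_sum_of_fintype, ← h2]
        exact Fintype.sum_equiv e _ _ fun v => rfl
      · have h4 := mem_clF.mp hσ
        refine h4.subset ?_
        intro v hv
        rw [mem_coe, mem_map]
        refine ⟨e v, ?_, e.symm_apply_apply v⟩
        by_contra h5
        exact hv (h3 _ h5)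
    have hC : ConeEmb (clF G e) n := by
      refine cone_of_almost _ (fun x => F fun v => x (e v)) ?_ ?_ ?_
      · refine hF.comp (Continuous.continuousOn ?_) hmem
        exact continuous_pi fun v => continuous_apply _
      · intro x hx
        exact hn _ (hmem x hx)
      · intro x hx y hy hxy
        exact hinj _ (hmem x hx) _ (hmem y hy) (fun v => hxy (e v))
    exact vk2_of_odd (clF_cx G e) (odd_of_coneEmb (clF_cx G e) hC)

/-- **vanishing above the middle dimension** -/
theorem above {n : ℕ} {V : Type} [Fintype V] [LinearOrder V] {G : SimpleGraph V} (h : Od G ∨ (Even n ∧ Ev G))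
    (hE : EmbS n G) (i : ℕ) (hi : n < 2 * i) : L2Van G i := by
  rcases h with h | ⟨⟨d, hd⟩, h⟩
  · exact (PP_of_Od h).2 i (obs_le hE.obs (by omega)) i le_rfl _ _
  · exact (QQ_of_Ev h).2 d (obs_le hE.obs (by omega)) i (by omega) _ _

end Pool.Agent.W2helper34.AD
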